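import Pool.Agent.H9.NC.Lin
import Pool.Agent.H94.NC.GDefs

/-!
# Homology, supertrace, Euler characteristic (block LIN, helper9)

`N.Coh` (defined in `H94/NC/GDefs`) is `ker D / im D`. `Coh.mk x hx` is the class of a cycle,
`Coh.map f` the induced map, `cohP`, `cohE` the parity operators, `str f` the supertrace of the
map induced by an endomorphism `f`, `chi N = str 1`.
-/

open scoped TensorProduct

noncomputable section

namespace NC

variable {k : Type} [Field k]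

namespace SD

variable {N N' N'' M M' M'' : SD k}

/-- the class of a cycle -/
def Coh.mk (x : N.V) (hx : N.D x = 0) : N.Coh :=
  Submodule.Quotient.mk (⟨x, LinearMap.mem_ker.2 hx⟩ : ↥(LinearMap.ker N.D))

theorem Coh.exists_mk (c : N.Coh) : ∃ x, ∃ hx : N.D x = 0, Coh.mk x hx = c := by
  obtain ⟨⟨x, hx⟩, rfl⟩ := Submodule.Quotient.mk_surjective _ c
  exact ⟨x, LinearMap.mem_ker.1 hx, rfl⟩

theorem Coh.mk_eq_mk {x y : N.V} (hx : N.D x = 0) (hy : N.D y = 0) :
    Coh.mk x hx = Coh.mk y hy ↔ N.Hml x y :=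
  (Submodule.Quotient.eq _).trans Iff.rfl

theorem Coh.mk_zero : Coh.mk (0 : N.V) (map_zero _) = 0 := rfl

theorem Coh.mk_eq_zero {x : N.V} (hx : N.D x = 0) : Coh.mk x hx = 0 ↔ ∃ z, N.D z = x := by
  rw [← Coh.mk_zero, Coh.mk_eq_mk]
  unfold Hml
  simp only [sub_zero]

theorem Coh.mk_congr {x y : N.V} (hx : N.D x = 0) (hy : N.D y = 0) (h : x = y) :
    Coh.mk x hx = Coh.mk y hy := by
  subst h
  rfl

theorem Coh.mk_add {x y : N.V} (hx : N.D x = 0) (hy : N.D y = 0) :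
    Coh.mk x hx + Coh.mk y hy = Coh.mk (x + y) (by rw [map_add, hx, hy, add_zero]) := rfl

theorem Coh.mk_smul (c : k) {x : N.V} (hx : N.D x = 0) :
    c • Coh.mk x hx = Coh.mk (c • x) (by rw [map_smul, hx, smul_zero]) := rfl

theorem Coh.mk_neg {x : N.V} (hx : N.D x = 0) :
    - Coh.mk x hx = Coh.mk (-x) (by rw [map_neg, hx, neg_zero]) := rfl

theorem Coh.mk_sub {x y : N.V} (hx : N.D x = 0) (hy : N.D y = 0) :
    Coh.mk x hx - Coh.mk y hy = Coh.mk (x - y) (by rw [map_sub, hx, hy, sub_zero]) := rfl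

/-- a linear map which respects cycles and boundaries acts on the homology -/
def Coh.lift (u : N.V →ₗ[k] N'.V) (h1 : ∀ x, N.D x = 0 → N'.D (u x) = 0)
    (h2 : ∀ x, ∃ z, N'.D z = u (N.D x)) : N.Coh →ₗ[k] N'.Coh :=
  Submodule.mapQ _ _ (u.restrict (p := LinearMap.ker N.D) (q := LinearMap.ker N'.D)
    (fun x hx => LinearMap.mem_ker.2 (h1 x (LinearMap.mem_ker.1 hx)))) (by
      rintro ⟨x, hx⟩ ⟨y, hy⟩
      obtain ⟨z, hz⟩ := h2 y
      refine ⟨z, ?_⟩
      rw [hz, hy]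
      rfl)

theorem Coh.lift_mk (u : N.V →ₗ[k] N'.V) (h1) (h2) {x : N.V} (hx : N.D x = 0) :
    Coh.lift u h1 h2 (Coh.mk x hx) = Coh.mk (u x) (h1 x hx) := rfl

/-- functoriality -/
def Coh.map (f : SD.Hom N N') : N.Coh →ₗ[k] N'.Coh :=
  Coh.lift f.f (fun x hx => by rw [← f.D, hx, map_zero]) (fun x => ⟨f.f x, (f.D x).symm⟩)

theorem Coh.map_mk (f : SD.Hom N N') {x : N.V} (hx : N.D x = 0) :
    Coh.map f (Coh.mk x hx) = Coh.mk (f.f x) (by rw [← f.D, hx, map_zero]) := rfl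

theorem Coh.map_id : Coh.map (Hom.id N) = LinearMap.id := by
  refine LinearMap.ext (fun c => ?_)
  obtain ⟨x, hx, rfl⟩ := Coh.exists_mk c
  rfl

theorem Coh.map_comp (g : SD.Hom N' N'') (f : SD.Hom N N') :
    Coh.map (g.comp f) = Coh.map g ∘ₗ Coh.map f := by
  refine LinearMap.ext (fun c => ?_)
  obtain ⟨x, hx, rfl⟩ := Coh.exists_mk c
  rfl

/-- the even part on the homology -/
def cohP (N : SD k) : N.Coh →ₗ[k] N.Coh :=
  Coh.lift N.P (fun x hx => by rw [N.DP, hx, map_zero, sub_zero])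
    (fun x => ⟨x - N.P x, by rw [map_sub, N.DP]; abel⟩)

/-- the parity operator on the homology -/
def cohE (N : SD k) : N.Coh →ₗ[k] N.Coh := cohP N + cohP N - LinearMap.id

theorem cohP_mk {x : N.V} (hx : N.D x = 0) :
    cohP N (Coh.mk x hx) = Coh.mk (N.P x) (by rw [N.DP, hx, map_zero, sub_zero]) := rfl

theorem cohE_mk {x : N.V} (hx : N.D x = 0) :
    cohE N (Coh.mk x hx) = Coh.mk (N.E x) (by rw [N.DE, hx, map_zero, neg_zero]) := rfl

theorem cohE_cohE (c : N.Coh) : cohE N (cohE N c) = c := by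
  obtain ⟨x, hx, rfl⟩ := Coh.exists_mk c
  rw [cohE_mk, cohE_mk]
  exact Coh.mk_congr _ _ (N.EE x)

theorem Coh.map_cohP (f : SD.Hom N N') (c : N.Coh) :
    Coh.map f (cohP N c) = cohP N' (Coh.map f c) := by
  obtain ⟨x, hx, rfl⟩ := Coh.exists_mk c
  rw [cohP_mk, Coh.map_mk, Coh.map_mk, cohP_mk]
  exact Coh.mk_congr _ _ (f.P x)

theorem Coh.map_cohE (f : SD.Hom N N') (c : N.Coh) :
    Coh.map f (cohE N c) = cohE N' (Coh.map f c) := by
  obtain ⟨x, hx, rfl⟩ := Coh.exists_mk c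
  rw [cohE_mk, Coh.map_mk, Coh.map_mk, cohE_mk]
  exact Coh.mk_congr _ _ (f.E x)

theorem Coh.map_congr {f g : SD.Hom N N'} (h : ∀ x, N.D x = 0 → N'.Hml (f.f x) (g.f x)) :
    Coh.map f = Coh.map g := by
  refine LinearMap.ext (fun c => ?_)
  obtain ⟨x, hx, rfl⟩ := Coh.exists_mk c
  rw [Coh.map_mk, Coh.map_mk, Coh.mk_eq_mk]
  exact h x hx

theorem Coh.map_bijective_iff (f : SD.Hom N N') : Function.Bijective (Coh.map f) ↔ f.QI := by
  constructor
  · rintro ⟨h1, h2⟩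
    constructor
    · intro x y hx hxy
      have e : Coh.map f (Coh.mk x hx) = Coh.map f 0 := by
        rw [map_zero, Coh.map_mk, Coh.mk_eq_zero]
        exact ⟨y, hxy.symm⟩
      exact (Coh.mk_eq_zero hx).1 (h1 e)
    · intro y hy
      obtain ⟨c, hc⟩ := h2 (Coh.mk y hy)
      obtain ⟨x, hx, rfl⟩ := Coh.exists_mk c
      rw [Coh.map_mk, Coh.mk_eq_mk] at hc
      obtain ⟨z, hz⟩ := hc
      exact ⟨x, -z, hx, by rw [map_neg, hz]; abel⟩
  · intro hf
    constructor
    · rw [injective_iff_map_eq_zero]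
      intro c hc
      obtain ⟨x, hx, rfl⟩ := Coh.exists_mk c
      rw [Coh.map_mk, Coh.mk_eq_zero] at hc
      obtain ⟨y, hy⟩ := hc
      exact (Coh.mk_eq_zero hx).2 (hf.inj x y hx hy.symm)
    · intro c
      obtain ⟨y, hy, rfl⟩ := Coh.exists_mk c
      obtain ⟨x, z, hx, e⟩ := hf.surj y hy
      refine ⟨Coh.mk x hx, ?_⟩
      rw [Coh.map_mk, Coh.mk_eq_mk]
      exact ⟨-z, by rw [map_neg, e]; abel⟩

theorem coh_subsingleton_iff : Subsingleton N.Coh ↔ N.Acyclic := by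
  constructor
  · intro h x hx
    exact (Coh.mk_eq_zero hx).1 (Subsingleton.elim _ _)
  · intro h
    refine ⟨fun a b => ?_⟩
    obtain ⟨x, hx, rfl⟩ := Coh.exists_mk a
    obtain ⟨y, hy, rfl⟩ := Coh.exists_mk b
    rw [Coh.mk_eq_mk]
    exact h _ (by rw [map_sub, hx, hy, sub_zero])

/-! ### the harmonic complex -/

/-- the harmonic part of a complex with a Hodge decomposition, with zero differential -/
def Hodge.harm (H : N.Hodge) : SD k where
  V := ↥(LinearMap.range H.pi)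
  D := 0
  P := N.P.restrict (p := LinearMap.range H.pi) (q := LinearMap.range H.pi) (by
    rintro _ ⟨v, rfl⟩
    exact ⟨N.P v, H.pi_P v⟩)
  DD := fun _ => rfl
  PP := fun v => Subtype.ext (N.PP _)
  DP := fun v => by
    rw [LinearMap.zero_apply, LinearMap.zero_apply, map_zero, sub_zero]

theorem Hodge.harm_D (H : N.Hodge) (v : H.harm.V) : H.harm.D v = 0 := rfl

/-- inclusion of the harmonic complex -/
def Hodge.incl (H : N.Hodge) : SD.Hom H.harm N where
  f := (LinearMap.range H.pi).subtype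
  D := by
    rintro ⟨_, v, rfl⟩
    exact (H.D_pi v).symm
  P := fun _ => rfl

/-- projection on the harmonic complex -/
def Hodge.proj (H : N.Hodge) : SD.Hom N H.harm where
  f := H.pi.rangeRestrict
  D := fun v => Subtype.ext (H.pi_D v)
  P := fun v => Subtype.ext (H.pi_P v)

theorem Hodge.proj_incl (H : N.Hodge) (v : H.harm.V) : H.proj.f (H.incl.f v) = v := by
  obtain ⟨_, v, rfl⟩ := v
  exact Subtype.ext (H.pi_pi v)

theorem Hodge.incl_proj (H : N.Hodge) (v : N.V) : H.incl.f (H.proj.f v) = H.pi v := rfl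

theorem Hodge.incl_qi (H : N.Hodge) : H.incl.QI := by
  refine Hom.QI.of_inverse (g := H.proj) (s := 0) (s' := -H.h) (fun v => ?_) (fun v => ?_)
  · rw [Hom.comp_f, Hodge.proj_incl, Hom.id_f, sub_self, LinearMap.zero_apply,
      LinearMap.zero_apply, map_zero, add_zero]
  · rw [Hom.comp_f, Hodge.incl_proj, Hom.id_f, LinearMap.neg_apply, LinearMap.neg_apply, map_neg,
      ← neg_add, H.eq, neg_sub]

/-- for a zero differential the homology is the whole space -/
def cohEquiv (h : ∀ v, N.D v = 0) : N.V ≃ₗ[k] N.Coh :=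
  LinearEquiv.ofBijective
    ({ toFun := fun v => Coh.mk v (h v)
       map_add' := fun _ _ => rfl
       map_smul' := fun _ _ => rfl } : N.V →ₗ[k] N.Coh) (by
    constructor
    · rw [injective_iff_map_eq_zero]
      intro v hv
      obtain ⟨z, hz⟩ := (Coh.mk_eq_zero (h v)).1 hv
      rw [← hz, h]
    · intro c
      obtain ⟨x, hx, rfl⟩ := Coh.exists_mk c
      exact ⟨x, rfl⟩)

theorem cohEquiv_apply (h : ∀ v, N.D v = 0) (v : N.V) : cohEquiv h v = Coh.mk v (h v) := rfl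

theorem coh_finite_iff : FiniteDimensional k N.Coh ↔ N.FinH := by
  obtain ⟨H⟩ := N.hodge
  have e : (LinearMap.range H.pi) ≃ₗ[k] N.Coh :=
    (cohEquiv (N := H.harm) (fun _ => rfl)).trans
      (LinearEquiv.ofBijective _ ((Coh.map_bijective_iff _).2 H.incl_qi))
  constructor
  · intro h
    exact H.finH (LinearEquiv.finiteDimensional e.symm)
  · intro h
    have := H.finite h
    exact LinearEquiv.finiteDimensional e

/-! ### supertrace -/

/-- the supertrace on the homology of an endomorphism -/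
def str (f : SD.Hom N N) : k := LinearMap.trace k N.Coh (cohE N ∘ₗ Coh.map f)

/-- the Euler characteristic -/
def chi (N : SD k) : k := LinearMap.trace k N.Coh (cohE N)

theorem str_id : str (Hom.id N) = chi N := by
  unfold str chi
  rw [Coh.map_id, LinearMap.comp_id]

theorem str_congr {f g : SD.Hom N N} (h : ∀ x, N.D x = 0 → N.Hml (f.f x) (g.f x)) :
    str f = str g := by
  unfold str
  rw [Coh.map_congr h]

theorem str_comm (hN : N.FinH) (hN' : N'.FinH) (f : SD.Hom N N') (g : SD.Hom N' N) :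
    str (g.comp f) = str (f.comp g) := by
  have i1 := coh_finite_iff.2 hN
  have i2 := coh_finite_iff.2 hN'
  unfold str
  have e : cohE N' ∘ₗ Coh.map (f.comp g) = Coh.map f ∘ₗ (cohE N ∘ₗ Coh.map g) := by
    refine LinearMap.ext (fun c => ?_)
    rw [Coh.map_comp]
    exact (Coh.map_cohE f _).symm
  rw [e, ← LinearMap.trace_comp_comm' (Coh.map f) (cohE N ∘ₗ Coh.map g), Coh.map_comp]
  rfl

/-- invariance under quasi-isomorphisms -/
theorem str_qi {f : SD.Hom N N'} (hf : f.QI) (u : SD.Hom N N) (u' : SD.Hom N' N')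
    (h : ∀ x, N.D x = 0 → N'.Hml (f.f (u.f x)) (u'.f (f.f x))) : str u = str u' := by
  have e : N.Coh ≃ₗ[k] N'.Coh :=
    LinearEquiv.ofBijective _ ((Coh.map_bijective_iff f).2 hf)
  have h1 : ∀ c, Coh.map f (Coh.map u c) = Coh.map u' (Coh.map f c) := by
    intro c
    obtain ⟨x, hx, rfl⟩ := Coh.exists_mk c
    rw [Coh.map_mk, Coh.map_mk, Coh.map_mk, Coh.map_mk, Coh.mk_eq_mk]
    exact h x hx
  unfold str
  rw [← LinearMap.trace_conj' (cohE N ∘ₗ Coh.map u)
    (LinearEquiv.ofBijective _ ((Coh.map_bijective_iff f).2 hf))]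
  congr 1
  refine LinearMap.ext (fun c' => ?_)
  obtain ⟨c, rfl⟩ := ((Coh.map_bijective_iff f).2 hf).2 c'
  rw [LinearEquiv.conj_apply_apply]
  have e1 : (LinearEquiv.ofBijective (Coh.map f) ((Coh.map_bijective_iff f).2 hf)).symm
      (Coh.map f c) = c :=
    LinearEquiv.symm_apply_apply
      (LinearEquiv.ofBijective (Coh.map f) ((Coh.map_bijective_iff f).2 hf)) c
  rw [e1]
  change Coh.map f (cohE N (Coh.map u c)) = cohE N' (Coh.map u' (Coh.map f c))
  rw [Coh.map_cohE, h1]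

theorem chi_qi {f : SD.Hom N N'} (hf : f.QI) : chi N = chi N' := by
  rw [← str_id, ← str_id]
  exact str_qi hf _ _ (fun x _ => Hml.refl _)

theorem chi_acyclic (h : N.Acyclic) : chi N = 0 := by
  have := coh_subsingleton_iff.2 h
  unfold chi
  have e : cohE N = 0 := LinearMap.ext (fun c => Subsingleton.elim _ _)
  rw [e, map_zero]

/-- for a zero differential the supertrace is the one of the space -/
theorem str_zeroD (h : ∀ v, N.D v = 0) (f : SD.Hom N N) :
    str f = LinearMap.trace k N.V (N.E ∘ₗ f.f) := by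
  unfold str
  rw [← LinearMap.trace_conj' (N.E ∘ₗ f.f) (cohEquiv h)]
  congr 1
  refine LinearMap.ext (fun c => ?_)
  obtain ⟨x, rfl⟩ := (cohEquiv h).surjective c
  rw [LinearEquiv.conj_apply_apply, LinearEquiv.symm_apply_apply]
  rfl

theorem Hodge.str_eq (H : N.Hodge) (f : SD.Hom N N) :
    str f = str (H.proj.comp (f.comp H.incl)) := by
  refine (str_qi H.incl_qi _ _ (fun x _ => ?_)).symm
  have e : H.incl.f ((H.proj.comp (f.comp H.incl)).f x) = H.pi (f.f (H.incl.f x)) := rfl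
  rw [e]
  refine (H.hml_pi ?_).symm
  rw [← f.D, ← H.incl.D, H.harm_D, map_zero, map_zero]

theorem Hodge.str_eq_trace (H : N.Hodge) (f : SD.Hom N N) :
    str f = LinearMap.trace k H.harm.V (H.harm.E ∘ₗ H.proj.f ∘ₗ f.f ∘ₗ H.incl.f) := by
  rw [H.str_eq, str_zeroD H.harm_D]
  rfl

/-- the homology of the shift -/
def cohSh (N : SD k) : N.Coh ≃ₗ[k] N.sh.Coh :=
  LinearEquiv.ofBijective
    (Coh.lift (N := N) (N' := N.sh) LinearMap.id
      (fun x hx => by
        change -(N.D x) = 0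
        rw [hx, neg_zero])
      (fun x => ⟨-x, by
        change -(N.D (-x)) = N.D x
        rw [map_neg, neg_neg]⟩)) (by
    constructor
    · rw [injective_iff_map_eq_zero]
      intro c hc
      obtain ⟨x, hx, rfl⟩ := Coh.exists_mk c
      rw [Coh.lift_mk, Coh.mk_eq_zero] at hc
      obtain ⟨z, hz⟩ := hc
      refine (Coh.mk_eq_zero hx).2 ⟨-z, ?_⟩
      rw [map_neg]
      exact hz
    · intro c
      obtain ⟨x, hx, rfl⟩ := Coh.exists_mk c
      have hx' : N.D x = 0 := neg_eq_zero.1 hx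
      exact ⟨Coh.mk x hx', rfl⟩)

theorem str_sh (f : SD.Hom N N) : str f.sh = - str f := by
  unfold str
  rw [← LinearMap.trace_conj' (cohE N ∘ₗ Coh.map f) (cohSh N), ← map_neg]
  congr 1
  refine LinearMap.ext (fun c => ?_)
  obtain ⟨c, rfl⟩ := (cohSh N).surjective c
  obtain ⟨x, hx, rfl⟩ := Coh.exists_mk c
  rw [LinearMap.neg_apply, LinearEquiv.conj_apply_apply, LinearEquiv.symm_apply_apply]
  have hx' : N.sh.D x = 0 := by
    change -(N.D x) = 0
    rw [hx, neg_zero]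
  have e1 : (cohSh N) (Coh.mk x hx) = Coh.mk (N := N.sh) x hx' := rfl
  rw [e1, LinearMap.comp_apply, Coh.map_mk, cohE_mk, LinearMap.comp_apply, Coh.map_mk, cohE_mk]
  have hy : N.D (N.E (f.f x)) = 0 := by rw [N.DE, ← f.D, hx, map_zero, map_zero, neg_zero]
  have hy' : N.sh.D (N.E (f.f x)) = 0 := by
    change -(N.D (N.E (f.f x))) = 0
    rw [hy, neg_zero]
  change _ = - Coh.mk (N := N.sh) (N.E (f.f x)) hy'
  rw [Coh.mk_neg]
  exact Coh.mk_congr _ _ (SD.E_sh N _)

theorem chi_sh : chi N.sh = - chi N := by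
  rw [← str_id, ← str_id, ← str_sh]
  rfl

/-- two projections on the same invariant subspace -/
theorem trace_proj {V : Type} [AddCommGroup V] [Module k V] [FiniteDimensional k V]
    (T p q : V →ₗ[k] V) (hq : ∀ v, q (p v) = p v) (hT : ∀ v, p (T (q v)) = T (q v)) :
    LinearMap.trace k V (T ∘ₗ p) = LinearMap.trace k V (T ∘ₗ q) := by
  have e1 : T ∘ₗ p = (T ∘ₗ q) ∘ₗ p := LinearMap.ext (fun v => (congrArg T (hq v)).symm)
  have e2 : p ∘ₗ (T ∘ₗ q) = T ∘ₗ q := LinearMap.ext hT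
  rw [e1, LinearMap.trace_comp_comm', e2]

/-- trace in an exact triangle of finite dimensional spaces -/
theorem trace_triangle {U V W : Type} [AddCommGroup U] [Module k U] [FiniteDimensional k U]
    [AddCommGroup V] [Module k V] [FiniteDimensional k V]
    [AddCommGroup W] [Module k W] [FiniteDimensional k W]
    (a : U →ₗ[k] V) (b : V →ₗ[k] W) (d : W →ₗ[k] U)
    (hab : ∀ v, b v = 0 ↔ ∃ u, a u = v) (hbd : ∀ w, d w = 0 ↔ ∃ v, b v = w)
    (hda : ∀ u, a u = 0 ↔ ∃ w, d w = u)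
    (S : U →ₗ[k] U) (T : V →ₗ[k] V) (R : W →ₗ[k] W)
    (h1 : ∀ u, a (S u) = T (a u)) (h2 : ∀ v, b (T v) = R (b v))
    (h3 : ∀ w, d (R w) = - S (d w)) :
    LinearMap.trace k V T = LinearMap.trace k U S + LinearMap.trace k W R := by
  obtain ⟨a', ha⟩ := exists_ginv a
  obtain ⟨b', hb⟩ := exists_ginv b
  obtain ⟨d', hd⟩ := exists_ginv d
  have ba : ∀ u, b (a u) = 0 := fun u => (hab _).2 ⟨u, rfl⟩
  have db : ∀ v, d (b v) = 0 := fun v => (hbd _).2 ⟨v, rfl⟩
  have ad : ∀ w, a (d w) = 0 := fun w => (hda _).2 ⟨w, rfl⟩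
  -- on `V`
  have t1 : LinearMap.trace k V (T ∘ₗ (a ∘ₗ a')) =
      LinearMap.trace k V (T ∘ₗ (LinearMap.id - b' ∘ₗ b)) := by
    refine trace_proj _ _ _ (fun v => ?_) (fun v => ?_)
    · simp only [LinearMap.sub_apply, LinearMap.comp_apply, LinearMap.id_apply, ba, map_zero,
        sub_zero]
    · simp only [LinearMap.sub_apply, LinearMap.comp_apply, LinearMap.id_apply]
      obtain ⟨u, hu⟩ := (hab (v - b' (b v))).1 (by rw [map_sub, hb, sub_self])
      rw [← hu, ← h1, ha]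
  have t2 : LinearMap.trace k V T = LinearMap.trace k V (T ∘ₗ (LinearMap.id - b' ∘ₗ b)) +
      LinearMap.trace k V (T ∘ₗ (b' ∘ₗ b)) := by
    rw [← map_add, ← LinearMap.comp_add, sub_add_cancel, LinearMap.comp_id]
  have t3 : LinearMap.trace k V (T ∘ₗ (a ∘ₗ a')) = LinearMap.trace k U (S ∘ₗ (a' ∘ₗ a)) := by
    have e : T ∘ₗ (a ∘ₗ a') = a ∘ₗ (S ∘ₗ a') := LinearMap.ext (fun v => (h1 _).symm)
    rw [e, LinearMap.trace_comp_comm']
    rfl
  have t4 : LinearMap.trace k V (T ∘ₗ (b' ∘ₗ b)) = LinearMap.trace k W (R ∘ₗ (b ∘ₗ b')) := by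
    have e : R ∘ₗ (b ∘ₗ b') = b ∘ₗ (T ∘ₗ b') := LinearMap.ext (fun v => (h2 _).symm)
    rw [e, ← LinearMap.trace_comp_comm' b (T ∘ₗ b')]
    rfl
  -- on `U`
  have t5 : LinearMap.trace k U (S ∘ₗ (d ∘ₗ d')) =
      LinearMap.trace k U (S ∘ₗ (LinearMap.id - a' ∘ₗ a)) := by
    refine trace_proj _ _ _ (fun v => ?_) (fun v => ?_)
    · simp only [LinearMap.sub_apply, LinearMap.comp_apply, LinearMap.id_apply, ad, map_zero,
        sub_zero]
    · simp only [LinearMap.sub_apply, LinearMap.comp_apply, LinearMap.id_apply]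
      obtain ⟨u, hu⟩ := (hda (v - a' (a v))).1 (by rw [map_sub, ha, sub_self])
      rw [← hu, ← neg_neg (S (d u)), ← h3, map_neg, map_neg, hd]
  have t6 : LinearMap.trace k U S = LinearMap.trace k U (S ∘ₗ (LinearMap.id - a' ∘ₗ a)) +
      LinearMap.trace k U (S ∘ₗ (a' ∘ₗ a)) := by
    rw [← map_add, ← LinearMap.comp_add, sub_add_cancel, LinearMap.comp_id]
  have t7 : LinearMap.trace k U (S ∘ₗ (d ∘ₗ d')) = - LinearMap.trace k W (R ∘ₗ (d' ∘ₗ d)) := by
    have e : S ∘ₗ (d ∘ₗ d') = - (d ∘ₗ (R ∘ₗ d')) := LinearMap.ext (fun v => by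
      simp only [LinearMap.comp_apply, LinearMap.neg_apply, h3, neg_neg])
    rw [e, map_neg, LinearMap.trace_comp_comm']
    rfl
  -- on `W`
  have t8 : LinearMap.trace k W (R ∘ₗ (b ∘ₗ b')) =
      LinearMap.trace k W (R ∘ₗ (LinearMap.id - d' ∘ₗ d)) := by
    refine trace_proj _ _ _ (fun v => ?_) (fun v => ?_)
    · simp only [LinearMap.sub_apply, LinearMap.comp_apply, LinearMap.id_apply, db, map_zero,
        sub_zero]
    · simp only [LinearMap.sub_apply, LinearMap.comp_apply, LinearMap.id_apply]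
      obtain ⟨u, hu⟩ := (hbd (v - d' (d v))).1 (by rw [map_sub, hd, sub_self])
      rw [← hu, ← h2, hb]
  have t9 : LinearMap.trace k W R = LinearMap.trace k W (R ∘ₗ (LinearMap.id - d' ∘ₗ d)) +
      LinearMap.trace k W (R ∘ₗ (d' ∘ₗ d)) := by
    rw [← map_add, ← LinearMap.comp_add, sub_add_cancel, LinearMap.comp_id]
  rw [t2, ← t1, t3, t4, t6, ← t5, t7, t9, ← t8]
  ring

/-- the connecting map of a short exact sequence -/
def SES.conn {f : SD.Hom N' N} {g : SD.Hom N N''} (S : SES f g) :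
    { d : N''.Coh →ₗ[k] N'.Coh // ∀ (y : N.V) (x : N'.V) (hy : N''.D (g.f y) = 0)
      (hx : N'.D x = 0), f.f x = N.D y → d (Coh.mk (g.f y) hy) = Coh.mk x hx } :=
  Classical.choice (by
    obtain ⟨σ, ρ, -, -, hσ, hρ⟩ := S.exists_split
    have key : ∀ y : N.V, ∃ t, N.D (σ (g.f y)) = N.D y - f.f (N'.D t) := by
      intro y
      obtain ⟨t, ht⟩ := S.exact (y - σ (g.f y)) (by rw [map_sub, hσ, sub_self])
      refine ⟨t, ?_⟩
      rw [f.D, ht, map_sub]
      abel
    have c1 : ∀ z, N''.D z = 0 → N'.D ((ρ ∘ₗ N.D ∘ₗ σ) z) = 0 := by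
      intro z hz
      obtain ⟨x, hx, hDx⟩ := S.exists_lift (y := σ z) (by rw [hσ, hz])
      change N'.D (ρ (N.D (σ z))) = 0
      rw [← hx, hρ, hDx]
    have c2 : ∀ z, ∃ w, N'.D w = (ρ ∘ₗ N.D ∘ₗ σ) (N''.D z) := by
      intro z
      obtain ⟨t, ht⟩ := key (N.D (σ z))
      rw [g.D, hσ, N.DD, zero_sub] at ht
      refine ⟨-t, ?_⟩
      change _ = ρ (N.D (σ (N''.D z)))
      rw [ht, map_neg, map_neg, hρ]
    refine ⟨⟨Coh.lift (ρ ∘ₗ N.D ∘ₗ σ) c1 c2, fun y x hy hx hxy => ?_⟩⟩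
    rw [Coh.lift_mk, Coh.mk_eq_mk]
    obtain ⟨t, ht⟩ := key y
    refine ⟨-t, ?_⟩
    change _ = ρ (N.D (σ (g.f y))) - x
    rw [ht, ← hxy, ← map_sub, hρ, map_neg]
    abel)

theorem SES.exact_mid {f : SD.Hom N' N} {g : SD.Hom N N''} (S : SES f g) (v : N.Coh) :
    Coh.map g v = 0 ↔ ∃ u, Coh.map f u = v := by
  constructor
  · intro h
    obtain ⟨y, hy, rfl⟩ := Coh.exists_mk v
    rw [Coh.map_mk, Coh.mk_eq_zero] at h
    obtain ⟨z'', hz⟩ := h
    obtain ⟨z, rfl⟩ := S.surj z''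
    obtain ⟨x, hx, hDx⟩ := S.exists_lift' (y := y - N.D z)
      (by rw [map_sub, hy, N.DD, sub_zero]) (by rw [map_sub, g.D, hz, sub_self])
    refine ⟨Coh.mk x hDx, ?_⟩
    rw [Coh.map_mk, Coh.mk_eq_mk]
    exact ⟨-z, by rw [map_neg, hx]; abel⟩
  · rintro ⟨u, rfl⟩
    obtain ⟨x, hx, rfl⟩ := Coh.exists_mk u
    rw [Coh.map_mk, Coh.map_mk, Coh.mk_eq_zero]
    exact ⟨0, by rw [map_zero, S.zero]⟩

theorem SES.exact_right {f : SD.Hom N' N} {g : SD.Hom N N''} (S : SES f g) (w : N''.Coh) :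
    S.conn.1 w = 0 ↔ ∃ v, Coh.map g v = w := by
  constructor
  · intro h
    obtain ⟨z, hz, rfl⟩ := Coh.exists_mk w
    obtain ⟨y, rfl⟩ := S.surj z
    obtain ⟨x, hx, hDx⟩ := S.exists_lift hz
    rw [S.conn.2 y x hz hDx hx, Coh.mk_eq_zero] at h
    obtain ⟨t, ht⟩ := h
    have e : N.D (y - f.f t) = 0 := by rw [map_sub, ← f.D, ht, hx, sub_self]
    refine ⟨Coh.mk (y - f.f t) e, ?_⟩
    rw [Coh.map_mk]
    exact Coh.mk_congr _ _ (by rw [map_sub, S.zero, sub_zero])
  · rintro ⟨v, rfl⟩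
    obtain ⟨y, hy, rfl⟩ := Coh.exists_mk v
    rw [Coh.map_mk, S.conn.2 y 0 _ (map_zero _) (by rw [map_zero, hy])]
    rfl

theorem SES.exact_left {f : SD.Hom N' N} {g : SD.Hom N N''} (S : SES f g) (u : N'.Coh) :
    Coh.map f u = 0 ↔ ∃ w, S.conn.1 w = u := by
  constructor
  · intro h
    obtain ⟨x, hx, rfl⟩ := Coh.exists_mk u
    rw [Coh.map_mk, Coh.mk_eq_zero] at h
    obtain ⟨y, hy⟩ := h
    have e : N''.D (g.f y) = 0 := by rw [← g.D, hy, S.zero]
    exact ⟨Coh.mk (g.f y) e, S.conn.2 y x e hx hy.symm⟩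
  · rintro ⟨w, rfl⟩
    obtain ⟨z, hz, rfl⟩ := Coh.exists_mk w
    obtain ⟨y, rfl⟩ := S.surj z
    obtain ⟨x, hx, hDx⟩ := S.exists_lift hz
    rw [S.conn.2 y x hz hDx hx, Coh.map_mk, Coh.mk_eq_zero]
    exact ⟨y, hx.symm⟩

/-- additivity of the supertrace in short exact sequences -/
theorem str_ses {f : SD.Hom N' N} {g : SD.Hom N N''} (S : SES f g) (hN' : N'.FinH)
    (hN'' : N''.FinH) (u' : SD.Hom N' N') (u : SD.Hom N N) (u'' : SD.Hom N'' N'')
    (h1 : ∀ x, f.f (u'.f x) = u.f (f.f x)) (h2 : ∀ x, g.f (u.f x) = u''.f (g.f x)) :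
    str u = str u' + str u'' := by
  have i1 := coh_finite_iff.2 hN'
  have i2 := coh_finite_iff.2 hN''
  have i3 := coh_finite_iff.2 (S.finH_mid hN' hN'')
  refine trace_triangle (Coh.map f) (Coh.map g) S.conn.1 S.exact_mid S.exact_right S.exact_left
    _ _ _ (fun c => ?_) (fun c => ?_) (fun c => ?_)
  · rw [LinearMap.comp_apply, LinearMap.comp_apply, Coh.map_cohE]
    congr 1
    obtain ⟨x, hx, rfl⟩ := Coh.exists_mk c
    rw [Coh.map_mk, Coh.map_mk, Coh.map_mk, Coh.map_mk]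
    exact Coh.mk_congr _ _ (h1 x)
  · rw [LinearMap.comp_apply, LinearMap.comp_apply, Coh.map_cohE]
    congr 1
    obtain ⟨x, hx, rfl⟩ := Coh.exists_mk c
    rw [Coh.map_mk, Coh.map_mk, Coh.map_mk, Coh.map_mk]
    exact Coh.mk_congr _ _ (h2 x)
  · obtain ⟨z, hz, rfl⟩ := Coh.exists_mk c
    obtain ⟨y, rfl⟩ := S.surj z
    obtain ⟨x, hx, hDx⟩ := S.exists_lift hz
    rw [S.conn.2 y x hz hDx hx, LinearMap.comp_apply, LinearMap.comp_apply, Coh.map_mk,
      Coh.map_mk, cohE_mk, cohE_mk]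
    have e1 : N''.E (u''.f (g.f y)) = g.f (N.E (u.f y)) := by rw [g.E, h2]
    have e2 : N''.D (g.f (N.E (u.f y))) = 0 := by
      rw [← e1, N''.DE, ← u''.D, hz, map_zero, map_zero, neg_zero]
    have e3 : N'.D (-(N'.E (u'.f x))) = 0 := by
      rw [map_neg, N'.DE, ← u'.D, hDx, map_zero, map_zero, neg_zero, neg_zero]
    rw [Coh.mk_congr _ e2 e1, S.conn.2 (N.E (u.f y)) (-(N'.E (u'.f x))) e2 e3, Coh.mk_neg]
    rw [map_neg, f.E, h1, hx, u.D, N.ED, neg_neg]

theorem chi_ses {f : SD.Hom N' N} {g : SD.Hom N N''} (S : SES f g) (hN' : N'.FinH)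
    (hN'' : N''.FinH) : chi N = chi N' + chi N'' := by
  rw [← str_id, ← str_id, ← str_id]
  exact str_ses S hN' hN'' _ _ _ (fun _ => rfl) (fun _ => rfl)

/-- multiplicativity of the supertrace -/
theorem str_tens {X Y : SD k} (hX : X.FinH) (hY : Y.FinH) (f : SD.Hom X X) (g : SD.Hom Y Y) :
    str (f.tens g) = str f * str g := by
  obtain ⟨HX⟩ := X.hodge
  obtain ⟨HY⟩ := Y.hodge
  have i1 : FiniteDimensional k HX.harm.V := HX.finite hX
  have i2 : FiniteDimensional k HY.harm.V := HY.finite hY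
  obtain ⟨s, -, hs⟩ := kuenneth_hodge HX HY
  have hq : (HX.incl.tens HY.incl).QI := by
    refine Hom.QI.of_inverse (g := HX.proj.tens HY.proj) (s := 0) (s' := -s)
      (fun v => ?_) (fun v => ?_)
    · have e : ((HX.proj.tens HY.proj).comp (HX.incl.tens HY.incl)).f v = v := by
        refine tens_ext (f := ((HX.proj.tens HY.proj).comp (HX.incl.tens HY.incl)).f)
          (g := LinearMap.id) (fun x y => ?_) v
        rw [Hom.comp_f, Hom.tens_tmul, Hom.tens_tmul, HX.proj_incl, HY.proj_incl]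
        rfl
      rw [e, Hom.id_f, sub_self, LinearMap.zero_apply, LinearMap.zero_apply, map_zero, add_zero]
    · have e : ((HX.incl.tens HY.incl).comp (HX.proj.tens HY.proj)).f v =
          TensorProduct.map HX.pi HY.pi v := by
        refine tens_ext (f := ((HX.incl.tens HY.incl).comp (HX.proj.tens HY.proj)).f)
          (g := TensorProduct.map HX.pi HY.pi) (fun x y => ?_) v
        rfl
      rw [e, Hom.id_f, ← neg_sub, hs v, LinearMap.neg_apply, LinearMap.neg_apply, map_neg,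
        ← neg_add]
  have hD : ∀ v, (HX.harm.tens HY.harm).D v = 0 := by
    intro v
    refine tens_ext (f := (HX.harm.tens HY.harm).D) (g := 0) (fun x y => ?_) v
    rw [tD_tmul, HX.harm_D, HY.harm_D, TensorProduct.zero_tmul, TensorProduct.tmul_zero,
      add_zero]
    rfl
  have hstep : str (f.tens g) = str ((HX.proj.comp (f.comp HX.incl)).tens
      (HY.proj.comp (g.comp HY.incl))) := by
    refine (str_qi hq _ _ (fun z hz => ?_)).symm
    have e : (HX.incl.tens HY.incl).f (((HX.proj.comp (f.comp HX.incl)).tens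
        (HY.proj.comp (g.comp HY.incl))).f z) = TensorProduct.map HX.pi HY.pi
        ((f.tens g).f ((HX.incl.tens HY.incl).f z)) := by
      refine tens_ext (f := (HX.incl.tens HY.incl).f ∘ₗ ((HX.proj.comp (f.comp HX.incl)).tens
        (HY.proj.comp (g.comp HY.incl))).f) (g := TensorProduct.map HX.pi HY.pi ∘ₗ
        (f.tens g).f ∘ₗ (HX.incl.tens HY.incl).f) (fun x y => ?_) z
      rfl
    rw [e]
    refine Hml.symm ⟨s ((f.tens g).f ((HX.incl.tens HY.incl).f z)), ?_⟩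
    rw [hs, ← (f.tens g).D, ← (HX.incl.tens HY.incl).D, hz, map_zero, map_zero, map_zero,
      add_zero]
  rw [hstep, str_zeroD hD, HX.str_eq_trace, HY.str_eq_trace, ← LinearMap.trace_tensorProduct']
  congr 1
  rw [tens_E_eq]
  exact TensorProduct.ext' (fun x y => rfl)

theorem chi_tens {X Y : SD k} (hX : X.FinH) (hY : Y.FinH) :
    chi (X.tens Y) = chi X * chi Y := by
  rw [← str_id, ← str_id, ← str_id, ← str_tens hX hY]
  refine str_congr (fun z _ => ?_)
  have e : ((Hom.id X).tens (Hom.id Y)).f z = z :=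
    tens_ext (f := ((Hom.id X).tens (Hom.id Y)).f) (g := LinearMap.id) (fun x y => rfl) z
  rw [e]
  exact Hml.refl _

/-- Hopf trace formula: for a finite dimensional module the supertrace can be computed on `V` -/
theorem str_finite [FiniteDimensional k N.V] (f : SD.Hom N N) :
    str f = LinearMap.trace k N.V (N.E ∘ₗ f.f) := by
  obtain ⟨H⟩ := N.hodge
  have i1 : FiniteDimensional k H.harm.V :=
    inferInstanceAs (FiniteDimensional k (LinearMap.range H.pi))
  rw [H.str_eq_trace]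
  have e0 : N.E ∘ₗ f.f = (N.E ∘ₗ f.f ∘ₗ H.incl.f) ∘ₗ H.proj.f +
      ((N.E ∘ₗ f.f ∘ₗ N.D) ∘ₗ H.h + (N.E ∘ₗ f.f ∘ₗ H.h) ∘ₗ N.D) := by
    refine LinearMap.ext (fun v => ?_)
    simp only [LinearMap.add_apply, LinearMap.comp_apply]
    rw [← map_add, ← map_add, ← map_add, ← map_add, H.eq, H.incl_proj, add_sub_cancel]
  have e1 : LinearMap.trace k N.V ((N.E ∘ₗ f.f ∘ₗ H.h) ∘ₗ N.D) =
      - LinearMap.trace k N.V ((N.E ∘ₗ f.f ∘ₗ N.D) ∘ₗ H.h) := by
    rw [LinearMap.trace_comp_comm', ← map_neg]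
    congr 1
    refine LinearMap.ext (fun v => ?_)
    simp only [LinearMap.neg_apply, LinearMap.comp_apply, N.DE, f.D]
  have e2 : LinearMap.trace k N.V ((N.E ∘ₗ f.f ∘ₗ H.incl.f) ∘ₗ H.proj.f) =
      LinearMap.trace k H.harm.V (H.harm.E ∘ₗ H.proj.f ∘ₗ f.f ∘ₗ H.incl.f) := by
    rw [LinearMap.trace_comp_comm']
    congr 1
    refine LinearMap.ext (fun v => ?_)
    simp only [LinearMap.comp_apply, H.proj.E]
  rw [e0, map_add, map_add, e1, e2, add_neg_cancel, add_zero]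

end SD

end NC
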