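import Pool.Agent.H16.NC.Tens

/-!
# Linear algebra of differential super vector spaces (block LIN, helper9)

Everything is about `SD k` over a field `k` of any characteristic.

* `SD.Hodge N` : even projection `pi` on representatives of the homology, odd homotopy `h` with
  `D h + h D = 1 - pi`, `h h = 0`, `h pi = pi h = 0`; `SD.hodge N` : it exists.
* `SD.OddMap`, `SD.IsHtp f g s` : `f - g = D s + s D`; `SD.exists_htp`; inverses of
  quasi-isomorphisms `SD.Hom.QI.exists_inverse`.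
* calculus of quasi-isomorphisms, five lemma, acyclicity and finiteness in short exact sequences.
* `SD.cone`, `SD.cone_acyclic_iff`.
* Kuenneth: `SD.kuenneth`.
-/

open scoped TensorProduct

namespace NC

variable {k : Type} [Field k]

namespace SD

variable {N N' N'' M M' M'' : SD k}

/-! ### Hodge decompositions -/

/-- odd linear maps -/
def OddMap (N N' : SD k) (s : N.V →ₗ[k] N'.V) : Prop := ∀ v, s (N.P v) = s v - N'.P (s v)

/-- even linear maps -/
def EvenMap (N N' : SD k) (s : N.V →ₗ[k] N'.V) : Prop := ∀ v, s (N.P v) = N'.P (s v)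

theorem OddMap.E {s : N.V →ₗ[k] N'.V} (hs : OddMap N N' s) (v : N.V) :
    s (N.E v) = - N'.E (s v) := by
  simp only [E_apply, map_sub, map_add, hs v]
  abel

theorem EvenMap.E {s : N.V →ₗ[k] N'.V} (hs : EvenMap N N' s) (v : N.V) :
    s (N.E v) = N'.E (s v) := by
  simp only [E_apply, map_sub, map_add, hs v]

/-- a projection on representatives of the homology and a contracting homotopy -/
structure Hodge (N : SD k) where
  pi : N.V →ₗ[k] N.V
  h : N.V →ₗ[k] N.V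
  pi_P : EvenMap N N pi
  h_P : OddMap N N h
  D_pi : ∀ v, N.D (pi v) = 0
  pi_D : ∀ v, pi (N.D v) = 0
  pi_pi : ∀ v, pi (pi v) = pi v
  h_h : ∀ v, h (h v) = 0
  h_pi : ∀ v, h (pi v) = 0
  pi_h : ∀ v, pi (h v) = 0
  eq : ∀ v, N.D (h v) + h (N.D v) = v - pi v

/-- generalised inverses of linear maps -/
theorem exists_ginv {V W : Type} [AddCommGroup V] [Module k V] [AddCommGroup W] [Module k W]
    (f : V →ₗ[k] W) : ∃ g : W →ₗ[k] V, ∀ v, f (g (f v)) = f v := by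
  obtain ⟨g, hg⟩ := f.rangeRestrict.exists_rightInverse_of_surjective
    (LinearMap.range_rangeRestrict f)
  obtain ⟨h0, hh0⟩ := LinearMap.exists_extend g
  refine ⟨h0, fun v => ?_⟩
  have e1 : h0 (f v) = g (f.rangeRestrict v) := by
    rw [← hh0]
    rfl
  have e2 : f.rangeRestrict (g (f.rangeRestrict v)) = f.rangeRestrict v :=
    congrArg (fun u => u (f.rangeRestrict v)) hg
  rw [e1]
  exact congrArg Subtype.val e2

/-- an odd generalised inverse of the differential -/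
theorem exists_odd_inverse (N : SD k) :
    ∃ h : N.V →ₗ[k] N.V, OddMap N N h ∧ ∀ v, N.D (h (N.D v)) = N.D v := by
  obtain ⟨h0, h1⟩ := exists_ginv N.D
  refine ⟨N.P ∘ₗ h0 ∘ₗ (LinearMap.id - N.P) + (LinearMap.id - N.P) ∘ₗ h0 ∘ₗ N.P, ?_, ?_⟩
  · intro v
    simp only [LinearMap.add_apply, LinearMap.comp_apply, LinearMap.sub_apply,
      LinearMap.id_apply, map_add, map_sub, N.PP]
    abel
  · intro v
    have e1 : N.D v - N.P (N.D v) = N.D (N.P v) := (N.DP v).symm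
    have e2 : N.P (N.D v) = N.D (v - N.P v) := by rw [map_sub, N.DP]; abel
    have e3 : N.P (N.D (N.P v)) = 0 := by rw [N.DP, map_sub, N.PP, sub_self]
    have a1 : N.D (N.P (h0 (N.D (N.P v)))) = N.D (N.P v) := by rw [N.DP, h1, e3, sub_zero]
    have a2 : N.D (h0 (N.D (v - N.P v)) - N.P (h0 (N.D (v - N.P v)))) = N.P (N.D v) := by
      rw [map_sub, N.DP, h1, sub_sub_cancel, ← e2, N.PP]
    change N.D (N.P (h0 (N.D v - N.P (N.D v))) +
      (h0 (N.P (N.D v)) - N.P (h0 (N.P (N.D v))))) = N.D v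
    rw [map_add, e1]
    have e4 : N.D (h0 (N.P (N.D v)) - N.P (h0 (N.P (N.D v)))) = N.P (N.D v) := by
      rw [← e2] at a2
      exact a2
    rw [e4, a1, N.DP]
    abel

/-- Hodge decompositions exist -/
theorem hodge (N : SD k) : Nonempty N.Hodge := by
  obtain ⟨h1, ho, hD⟩ := exists_odd_inverse N
  have ho' : ∀ v, h1 (N.P v) = h1 v - N.P (h1 v) := ho
  obtain ⟨h2, h2o, h2D, h2h⟩ : ∃ h2 : N.V →ₗ[k] N.V, OddMap N N h2 ∧
      (∀ v, N.D (h2 (N.D v)) = N.D v) ∧ ∀ v, h2 (N.D (h2 v)) = h2 v := by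
    refine ⟨h1 ∘ₗ N.D ∘ₗ h1, ?_, ?_, ?_⟩
    · intro v
      simp only [LinearMap.comp_apply, ho', map_sub, N.DP]
      abel
    · intro v
      simp only [LinearMap.comp_apply, hD]
    · intro v
      simp only [LinearMap.comp_apply, hD]
  have h2o' : ∀ v, h2 (N.P v) = h2 v - N.P (h2 v) := h2o
  obtain ⟨h, ho, hD, hh, hhh⟩ : ∃ h : N.V →ₗ[k] N.V, OddMap N N h ∧
      (∀ v, N.D (h (N.D v)) = N.D v) ∧ (∀ v, h (N.D (h v)) = h v) ∧ ∀ v, h (h v) = 0 := by
    refine ⟨h2 - h2 ∘ₗ h2 ∘ₗ N.D, ?_, ?_, ?_, ?_⟩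
    · intro v
      simp only [LinearMap.sub_apply, LinearMap.comp_apply, h2o', map_sub, N.DP]
      abel
    · intro v
      simp only [LinearMap.sub_apply, LinearMap.comp_apply, N.DD, map_zero, sub_zero, h2D]
    · intro v
      simp only [LinearMap.sub_apply, LinearMap.comp_apply, N.DD, map_zero, sub_zero, map_sub,
        h2h]
    · intro v
      simp only [LinearMap.sub_apply, LinearMap.comp_apply, map_sub, h2h]
      abel
  have ho' : ∀ v, h (N.P v) = h v - N.P (h v) := ho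
  have hpi : ∀ v, (LinearMap.id - N.D ∘ₗ h - h ∘ₗ N.D : N.V →ₗ[k] N.V) v =
      v - N.D (h v) - h (N.D v) := fun v => rfl
  refine ⟨⟨LinearMap.id - N.D ∘ₗ h - h ∘ₗ N.D, h, ?_, ho, ?_, ?_, ?_, hhh, ?_, ?_, ?_⟩⟩
  · intro v
    simp only [hpi, ho', map_sub, N.DP]
    abel
  · intro v
    simp only [hpi, map_sub, N.DD, hD]
    abel
  · intro v
    simp only [hpi, N.DD, map_zero, hD]
    abel
  · intro v
    simp only [hpi, map_sub, N.DD, hD, hh, hhh, map_zero]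
    abel
  · intro v
    simp only [hpi, map_sub, hh, hhh]
    abel
  · intro v
    simp only [hpi, hh, hhh, map_zero]
    abel
  · intro v
    rw [hpi]
    abel

theorem Hodge.pi_eq_zero (H : N.Hodge) (hN : N.Acyclic) (v : N.V) : H.pi v = 0 := by
  obtain ⟨y, hy⟩ := hN _ (H.D_pi v)
  rw [← H.pi_pi, ← hy, H.pi_D]

theorem Hodge.hml_pi (H : N.Hodge) {x : N.V} (hx : N.D x = 0) : N.Hml x (H.pi x) := by
  refine ⟨H.h x, ?_⟩
  rw [← H.eq x, hx, map_zero, add_zero]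

theorem Hodge.pi_eq_of_hml (H : N.Hodge) {x y : N.V} (hxy : N.Hml x y) : H.pi x = H.pi y := by
  obtain ⟨z, hz⟩ := hxy
  rw [← sub_eq_zero, ← map_sub, ← hz, H.pi_D]

/-- a cycle is a boundary iff its harmonic part vanishes -/
theorem Hodge.pi_eq_zero_iff (H : N.Hodge) {x : N.V} (hx : N.D x = 0) :
    H.pi x = 0 ↔ ∃ z, N.D z = x := by
  constructor
  · intro h
    obtain ⟨z, hz⟩ := H.hml_pi hx
    exact ⟨z, by rw [hz, h, sub_zero]⟩
  · rintro ⟨z, hz⟩
    rw [← hz, H.pi_D]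

theorem Hodge.finite (H : N.Hodge) (hN : N.FinH) :
    FiniteDimensional k (LinearMap.range H.pi) := by
  obtain ⟨s, hs⟩ := hN
  have h1 : LinearMap.range H.pi ≤ (Submodule.span k (s : Set N.V)).map H.pi := by
    rintro _ ⟨v, rfl⟩
    obtain ⟨y, hy, hxy⟩ := hs _ (H.D_pi v)
    exact ⟨y, hy, by rw [← H.pi_eq_of_hml hxy, H.pi_pi]⟩
  have h2 : FiniteDimensional k (Submodule.span k (s : Set N.V)) :=
    FiniteDimensional.span_finset k s
  exact Submodule.finiteDimensional_of_le h1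

theorem Hodge.finH (H : N.Hodge) (hN : FiniteDimensional k (LinearMap.range H.pi)) :
    N.FinH := by
  obtain ⟨s, hs⟩ := (Submodule.fg_iff_finiteDimensional (LinearMap.range H.pi)).2 hN
  refine ⟨s, fun x hx => ⟨H.pi x, ?_, H.hml_pi hx⟩⟩
  rw [hs]
  exact ⟨x, rfl⟩

/-! ### homologous elements -/

theorem Hml.refl (x : N.V) : N.Hml x x := ⟨0, by rw [map_zero, sub_self]⟩

theorem Hml.symm {x y : N.V} (h : N.Hml x y) : N.Hml y x := by
  obtain ⟨z, hz⟩ := h
  exact ⟨-z, by rw [map_neg, hz, neg_sub]⟩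

theorem Hml.trans {x y z : N.V} (h : N.Hml x y) (h' : N.Hml y z) : N.Hml x z := by
  obtain ⟨a, ha⟩ := h
  obtain ⟨b, hb⟩ := h'
  exact ⟨a + b, by rw [map_add, ha, hb]; abel⟩

theorem Hml.map (f : SD.Hom N N') {x y : N.V} (h : N.Hml x y) : N'.Hml (f.f x) (f.f y) := by
  obtain ⟨z, hz⟩ := h
  exact ⟨f.f z, by rw [← f.D, hz, map_sub]⟩

/-! ### homotopies -/

/-- `s` is a homotopy from `g` to `f` -/
def IsHtp (f g : SD.Hom N N') (s : N.V →ₗ[k] N'.V) : Prop :=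
  ∀ v, f.f v - g.f v = N'.D (s v) + s (N.D v)

theorem IsHtp.hml {f g : SD.Hom N N'} {s : N.V →ₗ[k] N'.V} (hs : IsHtp f g s) {x : N.V}
    (hx : N.D x = 0) : N'.Hml (f.f x) (g.f x) :=
  ⟨s x, by rw [hs x, hx, map_zero, add_zero]⟩

/-- maps that agree on the homology are homotopic -/
theorem exists_htp (f g : SD.Hom N N') (h : ∀ x, N.D x = 0 → N'.Hml (f.f x) (g.f x)) :
    ∃ s, OddMap N N' s ∧ IsHtp f g s := by
  obtain ⟨H⟩ := N.hodge
  obtain ⟨H'⟩ := N'.hodge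
  have h0 : ∀ v, H.h (N.P v) = H.h v - N.P (H.h v) := H.h_P
  have h0' : ∀ v, H'.h (N'.P v) = H'.h v - N'.P (H'.h v) := H'.h_P
  have hp : ∀ v, H.pi (N.P v) = N.P (H.pi v) := H.pi_P
  refine ⟨H'.h ∘ₗ (f.f - g.f) ∘ₗ H.pi + (f.f - g.f) ∘ₗ H.h, ?_, ?_⟩
  · intro v
    simp only [LinearMap.add_apply, LinearMap.comp_apply, LinearMap.sub_apply, h0, h0', hp,
      map_sub, map_add, f.P, g.P]
    abel
  · intro v
    obtain ⟨z, hz⟩ := h (H.pi v) (H.D_pi v)
    have e1 : N'.D (H'.h (f.f (H.pi v) - g.f (H.pi v))) = f.f (H.pi v) - g.f (H.pi v) := by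
      have e2 := H'.eq (f.f (H.pi v) - g.f (H.pi v))
      rw [← hz, N'.DD, map_zero, add_zero, H'.pi_D, sub_zero] at e2
      rw [← hz]
      exact e2
    have e3 := H.eq v
    have e4 : f.f (H.h (N.D v)) = f.f v - f.f (H.pi v) - N'.D (f.f (H.h v)) := by
      rw [← f.D, ← map_sub, ← e3, ← map_sub]
      congr 1
      abel
    have e5 : g.f (H.h (N.D v)) = g.f v - g.f (H.pi v) - N'.D (g.f (H.h v)) := by
      rw [← g.D, ← map_sub, ← e3, ← map_sub]
      congr 1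
      abel
    simp only [LinearMap.add_apply, LinearMap.comp_apply, LinearMap.sub_apply, map_add]
    rw [e1, H.pi_D, map_zero, map_zero, sub_zero, map_zero, e4, e5, map_sub]
    abel

/-- quasi-isomorphisms are homotopy equivalences -/
theorem Hom.QI.exists_inverse {f : SD.Hom N N'} (hf : f.QI) :
    ∃ g : SD.Hom N' N, (∃ s, OddMap N N s ∧ IsHtp (g.comp f) (Hom.id N) s) ∧
      ∃ s, OddMap N' N' s ∧ IsHtp (f.comp g) (Hom.id N') s := by
  obtain ⟨H⟩ := N.hodge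
  obtain ⟨H'⟩ := N'.hodge
  have hp : ∀ v, H.pi (N.P v) = N.P (H.pi v) := H.pi_P
  have hp' : ∀ v, H'.pi (N'.P v) = N'.P (H'.pi v) := H'.pi_P
  obtain ⟨t0, ht0⟩ := exists_ginv (H'.pi ∘ₗ f.f ∘ₗ H.pi)
  have ht0' : ∀ v, H'.pi (f.f (H.pi (t0 (H'.pi (f.f (H.pi v)))))) = H'.pi (f.f (H.pi v)) := ht0
  obtain ⟨t, hte, ht⟩ : ∃ t : N'.V →ₗ[k] N.V, (∀ v, t (N'.P v) = N.P (t v)) ∧
      ∀ v, H'.pi (f.f (H.pi (t (H'.pi (f.f (H.pi v)))))) = H'.pi (f.f (H.pi v)) := by
    refine ⟨N.P ∘ₗ t0 ∘ₗ N'.P + (LinearMap.id - N.P) ∘ₗ t0 ∘ₗ (LinearMap.id - N'.P), ?_, ?_⟩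
    · intro v
      simp only [LinearMap.add_apply, LinearMap.comp_apply, LinearMap.sub_apply,
        LinearMap.id_apply, map_add, map_sub, N.PP, N'.PP]
      abel
    · intro v
      have e1 := ht0' (N.P v)
      simp only [LinearMap.add_apply, LinearMap.comp_apply, LinearMap.sub_apply,
        LinearMap.id_apply, map_add, map_sub, hp, hp', f.P] at e1 ⊢
      rw [e1, ht0' v, N'.PP]
      abel
  let g : SD.Hom N' N :=
    { f := H.pi ∘ₗ t ∘ₗ H'.pi
      D := fun v => by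
        change H.pi (t (H'.pi (N'.D v))) = N.D (H.pi (t (H'.pi v)))
        rw [H'.pi_D, map_zero, map_zero, H.D_pi]
      P := fun v => by
        change H.pi (t (H'.pi (N'.P v))) = N.P (H.pi (t (H'.pi v)))
        rw [hp', hte, hp] }
  have hg : ∀ y, g.f y = H.pi (t (H'.pi y)) := fun y => rfl
  have c1 : ∀ y, N'.D y = 0 → N'.Hml (f.f (g.f y)) y := by
    intro y hy
    obtain ⟨x, z, hx, hxz⟩ := hf.surj y hy
    have e1 : H'.pi y = H'.pi (f.f (H.pi x)) := by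
      rw [hxz, map_add, H'.pi_D, add_zero]
      exact H'.pi_eq_of_hml ((H.hml_pi hx).map f)
    have e2 : H'.pi (f.f (g.f y)) = H'.pi y := by
      rw [hg, e1, ht]
    have e3 : N'.D (f.f (g.f y) - y) = 0 := by
      rw [map_sub, hy, sub_zero, hg, ← f.D, H.D_pi, map_zero]
    exact (H'.pi_eq_zero_iff e3).1 (by rw [map_sub, e2, sub_self])
  have c2 : ∀ x, N.D x = 0 → N.Hml (g.f (f.f x)) x := by
    intro x hx
    obtain ⟨z, hz⟩ := c1 (f.f x) (by rw [← f.D, hx, map_zero])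
    refine hf.inj _ z ?_ ?_
    · rw [map_sub, hx, sub_zero, hg, H.D_pi]
    · rw [map_sub, hz]
  exact ⟨g, exists_htp _ _ c2, exists_htp _ _ c1⟩

/-- homotopy equivalences are quasi-isomorphisms -/
theorem Hom.QI.of_inverse {f : SD.Hom N N'} {g : SD.Hom N' N} {s : N.V →ₗ[k] N.V}
    {s' : N'.V →ₗ[k] N'.V} (hs : IsHtp (g.comp f) (Hom.id N) s)
    (hs' : IsHtp (f.comp g) (Hom.id N') s') : f.QI := by
  constructor
  · intro x y hx hxy
    have e := hs x
    rw [hx, map_zero, add_zero, Hom.comp_f, Hom.id_f, hxy, g.D] at e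
    refine ⟨g.f y - s x, ?_⟩
    rw [map_sub, ← e]
    abel
  · intro y hy
    have e := hs' y
    rw [hy, map_zero, add_zero, Hom.comp_f, Hom.id_f] at e
    refine ⟨g.f y, -(s' y), ?_, ?_⟩
    · rw [← g.D, hy, map_zero]
    · rw [map_neg, ← e]
      abel

/-! ### calculus of quasi-isomorphisms -/

theorem Hom.QI.id (N : SD k) : (Hom.id N).QI :=
  ⟨fun _ y _ h => ⟨y, h.symm⟩, fun y hy => ⟨y, 0, hy, by rw [Hom.id_f, map_zero, add_zero]⟩⟩

theorem Hom.QI.comp {g : SD.Hom N' N''} {f : SD.Hom N N'} (hg : g.QI) (hf : f.QI) :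
    (g.comp f).QI := by
  constructor
  · intro x y hx hxy
    obtain ⟨z, hz⟩ := hg.inj (f.f x) y (by rw [← f.D, hx, map_zero]) hxy
    exact hf.inj x z hx hz.symm
  · intro y hy
    obtain ⟨y', z, hy', e⟩ := hg.surj y hy
    obtain ⟨x, z', hx, e'⟩ := hf.surj y' hy'
    refine ⟨x, g.f z' + z, hx, ?_⟩
    rw [e, e', map_add, g.D, map_add, Hom.comp_f]
    abel

/-- `g f` and `g` quasi-isomorphisms ⇒ `f` quasi-isomorphism -/
theorem Hom.QI.of_comp_left {g : SD.Hom N' N''} {f : SD.Hom N N'} (hg : g.QI)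
    (hgf : (g.comp f).QI) : f.QI := by
  constructor
  · intro x y hx hxy
    exact hgf.inj x (g.f y) hx (by rw [Hom.comp_f, hxy, g.D])
  · intro y hy
    obtain ⟨x, z, hx, e⟩ := hgf.surj (g.f y) (by rw [← g.D, hy, map_zero])
    obtain ⟨w, hw⟩ := hg.inj (y - f.f x) z (by rw [map_sub, hy, ← f.D, hx, map_zero, sub_zero])
      (by rw [map_sub, e, Hom.comp_f]; abel)
    exact ⟨x, w, hx, by rw [hw]; abel⟩

/-- `g f` and `f` quasi-isomorphisms ⇒ `g` quasi-isomorphism -/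
theorem Hom.QI.of_comp_right {g : SD.Hom N' N''} {f : SD.Hom N N'} (hf : f.QI)
    (hgf : (g.comp f).QI) : g.QI := by
  constructor
  · intro y z hy hyz
    obtain ⟨x, w, hx, e⟩ := hf.surj y hy
    obtain ⟨u, hu⟩ := hgf.inj x (z - g.f w) hx (by
      rw [map_sub, ← hyz, e, map_add, g.D, Hom.comp_f]
      abel)
    exact ⟨f.f u + w, by rw [map_add, ← f.D, hu, e]⟩
  · intro z hz
    obtain ⟨x, w, hx, e⟩ := hgf.surj z hz
    exact ⟨f.f x, w, by rw [← f.D, hx, map_zero], e⟩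

theorem Hom.QI.of_hml {f g : SD.Hom N N'} (hf : f.QI)
    (h : ∀ x, N.D x = 0 → N'.Hml (f.f x) (g.f x)) : g.QI := by
  constructor
  · intro x y hx hxy
    obtain ⟨z, hz⟩ := h x hx
    exact hf.inj x (y + z) hx (by rw [map_add, hz, ← hxy]; abel)
  · intro y hy
    obtain ⟨x, z, hx, e⟩ := hf.surj y hy
    obtain ⟨z', hz'⟩ := h x hx
    exact ⟨x, z' + z, hx, by rw [map_add, hz', e]; abel⟩

theorem Hom.QI.congr {f g : SD.Hom N N'} (hf : f.QI) (h : ∀ v, f.f v = g.f v) : g.QI :=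
  hf.of_hml (fun x _ => by rw [h x]; exact Hml.refl _)

theorem Hom.QI.of_htp {f g : SD.Hom N N'} (hf : f.QI) {s : N.V →ₗ[k] N'.V}
    (hs : IsHtp f g s) : g.QI :=
  hf.of_hml (fun _ hx => hs.hml hx)

theorem Hom.QI.of_bijective {f : SD.Hom N N'} (hf : Function.Bijective f.f) : f.QI := by
  constructor
  · intro x y hx hxy
    obtain ⟨z, rfl⟩ := hf.2 y
    exact ⟨z, hf.1 (by rw [f.D, hxy])⟩
  · intro y hy
    obtain ⟨x, rfl⟩ := hf.2 y
    refine ⟨x, 0, hf.1 ?_, by rw [map_zero, add_zero]⟩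
    rw [f.D, hy, map_zero]

/-- a retract (up to homology) of a quasi-isomorphism is a quasi-isomorphism -/
theorem Hom.QI.of_retract {f : SD.Hom N N'} {f' : SD.Hom M M'} (hf : f.QI)
    (i : SD.Hom M N) (r : SD.Hom N M) (i' : SD.Hom M' N') (r' : SD.Hom N' M')
    (hr : ∀ x, M.D x = 0 → M.Hml (r.f (i.f x)) x)
    (hr' : ∀ x, M'.D x = 0 → M'.Hml (r'.f (i'.f x)) x)
    (hi : ∀ x, f.f (i.f x) = i'.f (f'.f x)) (hrr : ∀ x, f'.f (r.f x) = r'.f (f.f x)) :
    f'.QI := by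
  constructor
  · intro x y hx hxy
    obtain ⟨z, hz⟩ := hf.inj (i.f x) (i'.f y) (by rw [← i.D, hx, map_zero])
      (by rw [hi, hxy, i'.D])
    obtain ⟨w, hw⟩ := hr x hx
    refine ⟨r.f z - w, ?_⟩
    rw [map_sub, ← r.D, hz, hw]
    abel
  · intro y hy
    obtain ⟨x, z, hx, e⟩ := hf.surj (i'.f y) (by rw [← i'.D, hy, map_zero])
    obtain ⟨w, hw⟩ := hr' y hy
    refine ⟨r.f x, r'.f z - w, by rw [← r.D, hx, map_zero], ?_⟩
    rw [map_sub, ← r'.D, hw, hrr, e, map_add]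
    abel

theorem Hom.QI.sh {f : SD.Hom N N'} (hf : f.QI) : f.sh.QI := by
  constructor
  · intro x y hx hxy
    have hx' : N.D x = 0 := neg_eq_zero.1 hx
    have hxy' : f.f x = N'.D (-y) := by
      rw [map_neg]
      exact hxy
    obtain ⟨z, hz⟩ := hf.inj x (-y) hx' hxy'
    refine ⟨-z, ?_⟩
    change -(N.D (-z)) = x
    rw [map_neg, neg_neg, hz]
  · intro y hy
    obtain ⟨x, z, hx, e⟩ := hf.surj y (neg_eq_zero.1 hy)
    refine ⟨x, -z, ?_, ?_⟩
    · change -(N.D x) = 0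
      rw [hx, neg_zero]
    · change y = f.f x + -(N'.D (-z))
      rw [map_neg, neg_neg, e]

/-! ### acyclic and finite modules -/

theorem Hom.QI.acyclic {f : SD.Hom N N'} (hf : f.QI) (h : N.Acyclic) : N'.Acyclic := by
  intro y hy
  obtain ⟨x, z, hx, e⟩ := hf.surj y hy
  obtain ⟨w, hw⟩ := h x hx
  exact ⟨f.f w + z, by rw [map_add, ← f.D, hw, e]⟩

theorem Hom.QI.acyclic' {f : SD.Hom N N'} (hf : f.QI) (h : N'.Acyclic) : N.Acyclic := by
  intro x hx
  obtain ⟨y, hy⟩ := h (f.f x) (by rw [← f.D, hx, map_zero])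
  exact hf.inj x y hx hy.symm

theorem Hom.QI.of_acyclic (f : SD.Hom N N') (h : N.Acyclic) (h' : N'.Acyclic) : f.QI := by
  constructor
  · intro x _ hx _
    exact h x hx
  · intro y hy
    obtain ⟨z, hz⟩ := h' y hy
    exact ⟨0, z, map_zero _, by rw [map_zero, zero_add, hz]⟩

theorem Acyclic.sh (h : N.Acyclic) : N.sh.Acyclic := by
  intro x hx
  obtain ⟨y, hy⟩ := h x (neg_eq_zero.1 hx)
  refine ⟨-y, ?_⟩
  change -(N.D (-y)) = x
  rw [map_neg, neg_neg, hy]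

/-- a retract of an acyclic module is acyclic -/
theorem Acyclic.of_retract (h : N.Acyclic) (i : SD.Hom M N) (r : SD.Hom N M)
    (hr : ∀ x, M.D x = 0 → M.Hml (r.f (i.f x)) x) : M.Acyclic := by
  intro x hx
  obtain ⟨y, hy⟩ := h (i.f x) (by rw [← i.D, hx, map_zero])
  obtain ⟨w, hw⟩ := hr x hx
  exact ⟨r.f y - w, by rw [map_sub, ← r.D, hy, hw]; abel⟩

/-- contractible modules are acyclic (`s` any linear map) -/
theorem Acyclic.of_contraction (s : N.V →ₗ[k] N.V) (hs : ∀ v, N.D (s v) + s (N.D v) = v) :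
    N.Acyclic := by
  intro x hx
  have e := hs x
  rw [hx, map_zero, add_zero] at e
  exact ⟨s x, e⟩

/-- acyclic modules over a field are contractible -/
theorem Acyclic.contraction (h : N.Acyclic) :
    ∃ s, OddMap N N s ∧ ∀ v, N.D (s v) + s (N.D v) = v := by
  obtain ⟨H⟩ := N.hodge
  exact ⟨H.h, H.h_P, fun v => by rw [H.eq, H.pi_eq_zero h, sub_zero]⟩

theorem FinH.of_subspace (F : Submodule k N.V) (hF : FiniteDimensional k F)
    (h : ∀ x, N.D x = 0 → ∃ y ∈ F, N.Hml x y) : N.FinH := by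
  obtain ⟨s, hs⟩ := (Submodule.fg_iff_finiteDimensional F).2 hF
  exact ⟨s, by rw [hs]; exact h⟩

theorem FinH.exists_subspace (h : N.FinH) : ∃ F : Submodule k N.V, FiniteDimensional k F ∧
    ∀ x, N.D x = 0 → ∃ y ∈ F, N.Hml x y := by
  obtain ⟨s, hs⟩ := h
  exact ⟨Submodule.span k (s : Set N.V), FiniteDimensional.span_finset k s, hs⟩

theorem Hom.QI.finH {f : SD.Hom N N'} (hf : f.QI) (h : N.FinH) : N'.FinH := by
  obtain ⟨F, hF, hh⟩ := h.exists_subspace
  refine FinH.of_subspace (F.map f.f) inferInstance (fun y hy => ?_)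
  obtain ⟨x, z, hx, e⟩ := hf.surj y hy
  obtain ⟨x0, hx0, hxx⟩ := hh x hx
  refine ⟨f.f x0, ⟨x0, hx0, rfl⟩, Hml.trans ⟨z, ?_⟩ (hxx.map f)⟩
  rw [e]
  abel

theorem FinH.of_retract (h : N.FinH) (i : SD.Hom M N) (r : SD.Hom N M)
    (hr : ∀ x, M.D x = 0 → M.Hml (r.f (i.f x)) x) : M.FinH := by
  obtain ⟨F, hF, hh⟩ := h.exists_subspace
  refine FinH.of_subspace (F.map r.f) inferInstance (fun y hy => ?_)
  obtain ⟨x0, hx0, hxx⟩ := hh (i.f y) (by rw [← i.D, hy, map_zero])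
  exact ⟨r.f x0, ⟨x0, hx0, rfl⟩, Hml.trans (hr y hy).symm (hxx.map r)⟩

theorem Hom.QI.finH' {f : SD.Hom N N'} (hf : f.QI) (h : N'.FinH) : N.FinH := by
  obtain ⟨g, ⟨s, _, hs⟩, _⟩ := hf.exists_inverse
  exact h.of_retract f g (fun x hx => hs.hml hx)

theorem FinH.sh (h : N.FinH) : N.sh.FinH := by
  obtain ⟨s, hs⟩ := h
  refine ⟨s, fun x hx => ?_⟩
  obtain ⟨y, hy, z, hz⟩ := hs x (neg_eq_zero.1 hx)
  refine ⟨y, hy, -z, ?_⟩
  change -(N.D (-z)) = x - y
  rw [map_neg, neg_neg, hz]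

theorem FinH.of_acyclic (h : N.Acyclic) : N.FinH := by
  refine ⟨∅, fun x hx => ⟨0, Submodule.zero_mem _, ?_⟩⟩
  obtain ⟨z, hz⟩ := h x hx
  exact ⟨z, by rw [hz, sub_zero]⟩

theorem FinH.of_finite (h : FiniteDimensional k N.V) : N.FinH :=
  FinH.of_subspace ⊤ inferInstance (fun x _ => ⟨x, Submodule.mem_top, Hml.refl x⟩)

/-! ### short exact sequences -/

theorem SES.inj' {f : SD.Hom N' N} {g : SD.Hom N N''} (S : SES f g) {x y : N'.V}
    (h : f.f x = f.f y) : x = y := by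
  have := S.inj (x - y) (by rw [map_sub, h, sub_self])
  exact sub_eq_zero.1 this

theorem SES.exists_lift {f : SD.Hom N' N} {g : SD.Hom N N''} (S : SES f g) {y : N.V}
    (hy : N''.D (g.f y) = 0) : ∃ x, f.f x = N.D y ∧ N'.D x = 0 := by
  obtain ⟨x, hx⟩ := S.exact (N.D y) (by rw [g.D, hy])
  refine ⟨x, hx, S.inj _ ?_⟩
  rw [f.D, hx, N.DD]

theorem SES.exists_lift' {f : SD.Hom N' N} {g : SD.Hom N N''} (S : SES f g) {y : N.V}
    (hy : N.D y = 0) (hgy : g.f y = 0) : ∃ x, f.f x = y ∧ N'.D x = 0 := by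
  obtain ⟨x, hx⟩ := S.exact y hgy
  refine ⟨x, hx, S.inj _ ?_⟩
  rw [f.D, hx, hy]

theorem SES.qi_of_acyclic_left {f : SD.Hom N' N} {g : SD.Hom N N''} (S : SES f g)
    (h' : N'.Acyclic) : g.QI := by
  constructor
  · intro y z'' hy hyz
    obtain ⟨z, rfl⟩ := S.surj z''
    obtain ⟨x, hx, hDx⟩ := S.exists_lift' (y := y - N.D z) (by rw [map_sub, hy, N.DD, sub_zero])
      (by rw [map_sub, hyz, g.D, sub_self])
    obtain ⟨w, hw⟩ := h' x hDx
    exact ⟨z + f.f w, by rw [map_add, ← f.D, hw, hx]; abel⟩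
  · intro z'' hz
    obtain ⟨y, rfl⟩ := S.surj z''
    obtain ⟨x, hx, hDx⟩ := S.exists_lift hz
    obtain ⟨w, hw⟩ := h' x hDx
    refine ⟨y - f.f w, 0, ?_, ?_⟩
    · rw [map_sub, ← f.D, hw, hx, sub_self]
    · rw [map_zero, add_zero, map_sub, S.zero, sub_zero]

theorem SES.qi_of_acyclic_right {f : SD.Hom N' N} {g : SD.Hom N N''} (S : SES f g)
    (h'' : N''.Acyclic) : f.QI := by
  constructor
  · intro x y _ hxy
    obtain ⟨z'', hz⟩ := h'' (g.f y) (by rw [← g.D, ← hxy, S.zero])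
    obtain ⟨z, rfl⟩ := S.surj z''
    obtain ⟨w, hw⟩ := S.exact (y - N.D z) (by rw [map_sub, g.D, hz, sub_self])
    refine ⟨w, S.inj' ?_⟩
    rw [f.D, hw, map_sub, N.DD, sub_zero, hxy]
  · intro y hy
    obtain ⟨z'', hz⟩ := h'' (g.f y) (by rw [← g.D, hy, map_zero])
    obtain ⟨z, rfl⟩ := S.surj z''
    obtain ⟨x, hx, hDx⟩ := S.exists_lift' (y := y - N.D z) (by rw [map_sub, hy, N.DD, sub_zero])
      (by rw [map_sub, g.D, hz, sub_self])
    exact ⟨x, z, hDx, by rw [hx]; abel⟩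

theorem SES.acyclic_of_qi_right {f : SD.Hom N' N} {g : SD.Hom N N''} (S : SES f g)
    (hg : g.QI) : N'.Acyclic := by
  intro x hx
  obtain ⟨y, hy⟩ := hg.inj (f.f x) 0 (by rw [← f.D, hx, map_zero]) (by rw [S.zero, map_zero])
  obtain ⟨n, z'', hn, e⟩ := hg.surj (g.f y) (by rw [← g.D, hy, S.zero])
  obtain ⟨z, rfl⟩ := S.surj z''
  obtain ⟨w, hw⟩ := S.exact (y - n - N.D z) (by
    rw [map_sub, map_sub, e, g.D]
    abel)
  refine ⟨w, S.inj' ?_⟩
  rw [f.D, hw, map_sub, map_sub, N.DD, hn, hy, sub_zero, sub_zero]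

theorem SES.acyclic_of_qi_left {f : SD.Hom N' N} {g : SD.Hom N N''} (S : SES f g)
    (hf : f.QI) : N''.Acyclic := by
  intro z'' hz
  obtain ⟨y, rfl⟩ := S.surj z''
  obtain ⟨x, hx, hDx⟩ := S.exists_lift hz
  obtain ⟨w, hw⟩ := hf.inj x y hDx hx
  obtain ⟨x1, u, hx1, e⟩ := hf.surj (y - f.f w) (by rw [map_sub, ← f.D, hw, hx, sub_self])
  refine ⟨g.f u, ?_⟩
  have e1 := congrArg g.f e
  rw [map_sub, S.zero, sub_zero, map_add, S.zero, zero_add, g.D] at e1
  exact e1.symm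

theorem SES.acyclic_mid {f : SD.Hom N' N} {g : SD.Hom N N''} (S : SES f g)
    (h' : N'.Acyclic) (h'' : N''.Acyclic) : N.Acyclic :=
  (S.qi_of_acyclic_left h').acyclic' h''

theorem SES.acyclic_left {f : SD.Hom N' N} {g : SD.Hom N N''} (S : SES f g)
    (h : N.Acyclic) (h'' : N''.Acyclic) : N'.Acyclic :=
  (S.qi_of_acyclic_right h'').acyclic' h

theorem SES.acyclic_right {f : SD.Hom N' N} {g : SD.Hom N N''} (S : SES f g)
    (h' : N'.Acyclic) (h : N.Acyclic) : N''.Acyclic :=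
  (S.qi_of_acyclic_left h').acyclic h

/-- linear section and retraction of a short exact sequence -/
theorem SES.exists_split {f : SD.Hom N' N} {g : SD.Hom N N''} (S : SES f g) :
    ∃ (σ : N''.V →ₗ[k] N.V) (ρ : N.V →ₗ[k] N'.V), EvenMap N'' N σ ∧ EvenMap N N' ρ ∧
      (∀ z, g.f (σ z) = z) ∧ ∀ x, ρ (f.f x) = x := by
  obtain ⟨σ, hσ⟩ := g.f.exists_rightInverse_of_surjective (LinearMap.range_eq_top.2 S.surj)
  obtain ⟨ρ, hρ⟩ := f.f.exists_leftInverse_of_injective (LinearMap.ker_eq_bot.2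
    (fun x y h => S.inj' h))
  have hσ' : ∀ z, g.f (σ z) = z := fun z => congrArg (fun u => u z) hσ
  have hρ' : ∀ x, ρ (f.f x) = x := fun x => congrArg (fun u => u x) hρ
  refine ⟨N.P ∘ₗ σ ∘ₗ N''.P + (LinearMap.id - N.P) ∘ₗ σ ∘ₗ (LinearMap.id - N''.P),
    N'.P ∘ₗ ρ ∘ₗ N.P + (LinearMap.id - N'.P) ∘ₗ ρ ∘ₗ (LinearMap.id - N.P), ?_, ?_, ?_, ?_⟩
  · intro v
    simp only [LinearMap.add_apply, LinearMap.comp_apply, LinearMap.sub_apply,
      LinearMap.id_apply, map_add, map_sub, N.PP, N''.PP]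
    abel
  · intro v
    simp only [LinearMap.add_apply, LinearMap.comp_apply, LinearMap.sub_apply,
      LinearMap.id_apply, map_add, map_sub, N.PP, N'.PP]
    abel
  · intro z
    simp only [LinearMap.add_apply, LinearMap.comp_apply, LinearMap.sub_apply,
      LinearMap.id_apply, map_add, map_sub, g.P, hσ', N''.PP]
    abel
  · intro x
    simp only [LinearMap.add_apply, LinearMap.comp_apply, LinearMap.sub_apply,
      LinearMap.id_apply, map_sub, ← f.P, hρ', N'.PP]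
    abel

/-- finiteness through a map whose kernel is the image of a finite dimensional space -/
theorem finite_of_chase {V W : Type} [AddCommGroup V] [Module k V] [AddCommGroup W] [Module k W]
    (s : Submodule k V) (φ : V →ₗ[k] W) (F : Submodule k W) (hF : FiniteDimensional k F)
    (h1 : ∀ v ∈ s, φ v ∈ F) (K : Submodule k V) (hK : FiniteDimensional k K)
    (h2 : ∀ v ∈ s, φ v = 0 → v ∈ K) : FiniteDimensional k s := by
  rw [← Submodule.fg_iff_finiteDimensional]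
  refine Submodule.fg_of_fg_map_of_fg_inf_ker φ ?_ ?_
  · rw [Submodule.fg_iff_finiteDimensional]
    refine Submodule.finiteDimensional_of_le (S₂ := F) ?_
    rintro _ ⟨v, hv, rfl⟩
    exact h1 v hv
  · rw [Submodule.fg_iff_finiteDimensional]
    refine Submodule.finiteDimensional_of_le (S₂ := K) ?_
    rintro v ⟨hv, hv'⟩
    exact h2 v hv hv'

theorem SES.finH_mid {f : SD.Hom N' N} {g : SD.Hom N N''} (S : SES f g)
    (h' : N'.FinH) (h'' : N''.FinH) : N.FinH := by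
  obtain ⟨H⟩ := N.hodge
  obtain ⟨H'⟩ := N'.hodge
  obtain ⟨H''⟩ := N''.hodge
  have f1 := H'.finite h'
  have f2 := H''.finite h''
  refine H.finH (finite_of_chase _ (H''.pi ∘ₗ g.f) _ f2 (fun v _ => ⟨g.f v, rfl⟩)
    ((LinearMap.range H'.pi).map (H.pi ∘ₗ f.f)) inferInstance ?_)
  rintro _ ⟨v, rfl⟩ hv
  obtain ⟨z'', hz⟩ := (H''.pi_eq_zero_iff (x := g.f (H.pi v))
    (by rw [← g.D, H.D_pi, map_zero])).1 hv
  obtain ⟨z, rfl⟩ := S.surj z''
  obtain ⟨x, hx, hDx⟩ := S.exists_lift' (y := H.pi v - N.D z)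
    (by rw [map_sub, H.D_pi, N.DD, sub_zero]) (by rw [map_sub, g.D, hz, sub_self])
  refine ⟨H'.pi x, ⟨x, rfl⟩, ?_⟩
  change H.pi (f.f (H'.pi x)) = H.pi v
  rw [← H.pi_eq_of_hml ((H'.hml_pi hDx).map f), hx, map_sub, H.pi_D, sub_zero, H.pi_pi]

theorem SES.finH_left {f : SD.Hom N' N} {g : SD.Hom N N''} (S : SES f g)
    (h : N.FinH) (h'' : N''.FinH) : N'.FinH := by
  obtain ⟨H⟩ := N.hodge
  obtain ⟨H'⟩ := N'.hodge
  obtain ⟨H''⟩ := N''.hodge
  have f1 := H.finite h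
  have f2 := H''.finite h''
  obtain ⟨σ, ρ, -, -, hσ, hρ⟩ := S.exists_split
  refine H'.finH (finite_of_chase _ (H.pi ∘ₗ f.f) _ f1 (fun v _ => ⟨f.f v, rfl⟩)
    ((LinearMap.range H''.pi).map (H'.pi ∘ₗ ρ ∘ₗ N.D ∘ₗ σ)) inferInstance ?_)
  rintro _ ⟨v, rfl⟩ hv
  obtain ⟨y, hy⟩ := (H.pi_eq_zero_iff (x := f.f (H'.pi v))
    (by rw [← f.D, H'.D_pi, map_zero])).1 hv
  have hgy : N''.D (g.f y) = 0 := by rw [← g.D, hy, S.zero]
  obtain ⟨w, hw⟩ := H''.hml_pi hgy
  obtain ⟨t, ht⟩ := S.exact (y - σ (H''.pi (g.f y)) - N.D (σ w)) (by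
    rw [map_sub, map_sub, hσ, g.D, hσ, hw]
    abel)
  refine ⟨H''.pi (g.f y), ⟨_, rfl⟩, ?_⟩
  change H'.pi (ρ (N.D (σ (H''.pi (g.f y))))) = H'.pi v
  have e1 : N.D (σ (H''.pi (g.f y))) = f.f (H'.pi v - N'.D t) := by
    rw [map_sub, f.D, ht, map_sub, map_sub, N.DD, hy]
    abel
  rw [e1, hρ, map_sub, H'.pi_D, sub_zero, H'.pi_pi]

theorem SES.finH_right {f : SD.Hom N' N} {g : SD.Hom N N''} (S : SES f g)
    (h' : N'.FinH) (h : N.FinH) : N''.FinH := by
  obtain ⟨H⟩ := N.hodge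
  obtain ⟨H'⟩ := N'.hodge
  obtain ⟨H''⟩ := N''.hodge
  have f1 := H'.finite h'
  have f2 := H.finite h
  obtain ⟨σ, ρ, -, -, hσ, hρ⟩ := S.exists_split
  refine H''.finH (finite_of_chase _ (H'.pi ∘ₗ ρ ∘ₗ N.D ∘ₗ σ) _ f1 (fun v _ => ⟨_, rfl⟩)
    ((LinearMap.range H.pi).map (H''.pi ∘ₗ g.f)) inferInstance ?_)
  rintro _ ⟨v, rfl⟩ hv
  obtain ⟨x, hx, hDx⟩ := S.exists_lift (y := σ (H''.pi v)) (by rw [hσ, H''.D_pi])
  have hv' : H'.pi (ρ (N.D (σ (H''.pi v)))) = 0 := hv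
  rw [← hx, hρ] at hv'
  obtain ⟨w, hw⟩ := (H'.pi_eq_zero_iff hDx).1 hv'
  have hn : N.D (σ (H''.pi v) - f.f w) = 0 := by rw [map_sub, ← f.D, hw, hx, sub_self]
  have hgn : g.f (σ (H''.pi v) - f.f w) = H''.pi v := by rw [map_sub, hσ, S.zero, sub_zero]
  refine ⟨H.pi (σ (H''.pi v) - f.f w), ⟨_, rfl⟩, ?_⟩
  change H''.pi (g.f (H.pi (σ (H''.pi v) - f.f w))) = H''.pi v
  rw [← H''.pi_eq_of_hml ((H.hml_pi hn).map g), hgn, H''.pi_pi]

/-- five lemma -/
theorem SES.qi_mid {f : SD.Hom N' N} {g : SD.Hom N N''} (S : SES f g)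
    {f' : SD.Hom M' M} {g' : SD.Hom M M''} (S' : SES f' g')
    {a : SD.Hom N' M'} {b : SD.Hom N M} {c : SD.Hom N'' M''}
    (hab : ∀ x, b.f (f.f x) = f'.f (a.f x)) (hbc : ∀ x, c.f (g.f x) = g'.f (b.f x))
    (ha : a.QI) (hc : c.QI) : b.QI := by
  constructor
  · intro y m hy hym
    obtain ⟨n'', hn⟩ := hc.inj (g.f y) (g'.f m) (by rw [← g.D, hy, map_zero])
      (by rw [hbc, hym, g'.D])
    obtain ⟨n, rfl⟩ := S.surj n''
    obtain ⟨x, hx, hDx⟩ := S.exists_lift' (y := y - N.D n) (by rw [map_sub, hy, N.DD, sub_zero])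
      (by rw [map_sub, g.D, hn, sub_self])
    have e1 : f'.f (a.f x) = M.D (m - b.f n) := by
      rw [← hab, hx, map_sub, hym, b.D, map_sub]
    obtain ⟨n2'', z'', hn2, e2⟩ := hc.surj (g'.f (m - b.f n)) (by
      rw [← g'.D, ← e1, S'.zero])
    obtain ⟨n3, rfl⟩ := S.surj n2''
    obtain ⟨z, rfl⟩ := S'.surj z''
    obtain ⟨x3, hx3, hDx3⟩ := S.exists_lift hn2
    obtain ⟨w, hw⟩ := S'.exact (m - b.f n - b.f n3 - M.D z) (by
      rw [map_sub, map_sub, e2, ← hbc, g'.D]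
      abel)
    obtain ⟨t, ht⟩ := ha.inj (x - x3) w (by rw [map_sub, hDx, hDx3, sub_zero]) (S'.inj' (by
      rw [map_sub, map_sub, e1, ← hab, hx3, b.D, f'.D, hw]
      simp only [map_sub, M.DD, sub_zero]))
    refine ⟨n + n3 + f.f t, ?_⟩
    rw [map_add, map_add, ← f.D, ht, map_sub, hx, hx3]
    abel
  · intro m hm
    obtain ⟨n'', z'', hn, e⟩ := hc.surj (g'.f m) (by rw [← g'.D, hm, map_zero])
    obtain ⟨n, rfl⟩ := S.surj n''
    obtain ⟨z, rfl⟩ := S'.surj z''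
    obtain ⟨x, hx, hDx⟩ := S.exists_lift hn
    obtain ⟨w, hw⟩ := S'.exact (m - b.f n - M.D z) (by
      rw [map_sub, map_sub, e, ← hbc, g'.D]
      abel)
    have e1 : a.f x = M'.D (-w) := by
      refine S'.inj' ?_
      rw [← hab, hx, map_neg, map_neg, f'.D, hw, map_sub, map_sub, hm, M.DD, b.D]
      abel
    obtain ⟨t, ht⟩ := ha.inj x (-w) hDx e1
    obtain ⟨x1, u, hx1, e2⟩ := ha.surj (a.f t + w) (by
      rw [map_add, ← a.D, ht, e1, map_neg]
      abel)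
    refine ⟨n - f.f t + f.f x1, z + f'.f u, ?_, ?_⟩
    · rw [map_add, map_sub, ← f.D, ← f.D, ht, hx, hx1, map_zero]
      abel
    · have e3 := congrArg f'.f e2
      rw [map_add, map_add, hw, f'.D, ← hab, ← hab] at e3
      rw [map_add, map_sub, map_add]
      have e4 : m = b.f n + M.D z + (m - b.f n - M.D z) := by abel
      have e5 : m - b.f n - M.D z = b.f (f.f x1) + M.D (f'.f u) - b.f (f.f t) := by
        rw [← e3]
        abel
      rw [e5] at e4
      refine e4.trans ?_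
      abel

theorem SES.qi_left {f : SD.Hom N' N} {g : SD.Hom N N''} (S : SES f g)
    {f' : SD.Hom M' M} {g' : SD.Hom M M''} (S' : SES f' g')
    {a : SD.Hom N' M'} {b : SD.Hom N M} {c : SD.Hom N'' M''}
    (hab : ∀ x, b.f (f.f x) = f'.f (a.f x)) (hbc : ∀ x, c.f (g.f x) = g'.f (b.f x))
    (hb : b.QI) (hc : c.QI) : a.QI := by
  constructor
  · intro x w hx hxw
    obtain ⟨y, hy⟩ := hb.inj (f.f x) (f'.f w) (by rw [← f.D, hx, map_zero])
      (by rw [hab, hxw, f'.D])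
    obtain ⟨y1, m, hy1, e⟩ := hb.surj (b.f y - f'.f w) (by
      rw [map_sub, ← b.D, hy, ← f'.D, hab, hxw, sub_self])
    have e1 : c.f (g.f (y - y1)) = M''.D (g'.f m) := by
      have e2 := congrArg g'.f e
      rw [map_sub, S'.zero, sub_zero, map_add, g'.D] at e2
      rw [map_sub, map_sub, hbc, hbc, e2]
      abel
    obtain ⟨n'', hn⟩ := hc.inj (g.f (y - y1)) (g'.f m) (by
      rw [← g.D, map_sub, hy, hy1, sub_zero, S.zero]) e1
    obtain ⟨n, rfl⟩ := S.surj n''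
    obtain ⟨t, ht⟩ := S.exact (y - y1 - N.D n) (by rw [map_sub, g.D, hn, sub_self])
    refine ⟨t, S.inj' ?_⟩
    rw [f.D, ht, map_sub, map_sub, N.DD, hy1, hy]
    abel
  · intro w hw
    obtain ⟨y, m, hy, e⟩ := hb.surj (f'.f w) (by rw [← f'.D, hw, map_zero])
    have e1 : c.f (g.f y) = M''.D (-(g'.f m)) := by
      have e2 := congrArg g'.f e
      rw [S'.zero, map_add, g'.D] at e2
      rw [hbc, map_neg]
      exact eq_neg_of_add_eq_zero_left e2.symm
    obtain ⟨n'', hn⟩ := hc.inj (g.f y) _ (by rw [← g.D, hy, map_zero]) e1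
    obtain ⟨n, rfl⟩ := S.surj n''
    obtain ⟨x, hx, hDx⟩ := S.exists_lift' (y := y - N.D n) (by rw [map_sub, hy, N.DD, sub_zero])
      (by rw [map_sub, g.D, hn, sub_self])
    have e3 : f'.f (w - a.f x) = M.D (b.f n + m) := by
      rw [map_sub, ← hab, hx, map_sub, e, b.D, map_add]
      abel
    obtain ⟨n2'', z'', hn2, e4⟩ := hc.surj (g'.f (b.f n + m)) (by rw [← g'.D, ← e3, S'.zero])
    obtain ⟨n3, rfl⟩ := S.surj n2''
    obtain ⟨z, rfl⟩ := S'.surj z''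
    obtain ⟨x3, hx3, hDx3⟩ := S.exists_lift hn2
    obtain ⟨u, hu⟩ := S'.exact (b.f n + m - b.f n3 - M.D z) (by
      rw [map_sub, map_sub, e4, ← hbc, g'.D]
      abel)
    refine ⟨x + x3, u, by rw [map_add, hDx, hDx3, add_zero], S'.inj' ?_⟩
    have e5 : f'.f (a.f x3) = M.D (b.f n3) := by rw [← hab, hx3, b.D]
    have e6 : f'.f w = f'.f (w - a.f x) + f'.f (a.f x) := by
      rw [map_sub]
      abel
    rw [e6, e3, map_add a.f, map_add f'.f, map_add f'.f, e5, f'.D, hu, map_sub, map_sub, M.DD]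
    abel

theorem SES.qi_right {f : SD.Hom N' N} {g : SD.Hom N N''} (S : SES f g)
    {f' : SD.Hom M' M} {g' : SD.Hom M M''} (S' : SES f' g')
    {a : SD.Hom N' M'} {b : SD.Hom N M} {c : SD.Hom N'' M''}
    (hab : ∀ x, b.f (f.f x) = f'.f (a.f x)) (hbc : ∀ x, c.f (g.f x) = g'.f (b.f x))
    (ha : a.QI) (hb : b.QI) : c.QI := by
  constructor
  · intro z m'' hz hzm
    obtain ⟨y, rfl⟩ := S.surj z
    obtain ⟨m, rfl⟩ := S'.surj m''
    obtain ⟨x, hx, hDx⟩ := S.exists_lift hz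
    obtain ⟨w, hw⟩ := S'.exact (b.f y - M.D m) (by rw [map_sub, ← hbc, hzm, g'.D, sub_self])
    have e1 : a.f x = M'.D w := by
      refine S'.inj' ?_
      rw [← hab, hx, f'.D, hw, map_sub, M.DD, sub_zero, b.D]
    obtain ⟨t, ht⟩ := ha.inj x w hDx e1
    obtain ⟨x1, u, hx1, e2⟩ := ha.surj (w - a.f t) (by rw [map_sub, ← a.D, ht, e1, sub_self])
    have e3 : b.f (y - f.f t - f.f x1) = M.D (m + f'.f u) := by
      have e4 := congrArg f'.f e2
      rw [map_sub, hw, map_add, f'.D, ← hab, ← hab] at e4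
      rw [map_sub, map_sub, map_add]
      have e5 : b.f y = M.D m + (b.f (f.f x1) + M.D (f'.f u)) + b.f (f.f t) := by
        rw [← e4]
        abel
      rw [e5]
      abel
    obtain ⟨v, hv⟩ := hb.inj _ _ (by
      rw [map_sub, map_sub, ← f.D, ← f.D, ht, hx1, hx, map_zero, sub_zero, sub_self]) e3
    refine ⟨g.f v, ?_⟩
    rw [← g.D, hv, map_sub, map_sub, S.zero, S.zero, sub_zero, sub_zero]
  · intro z hz
    obtain ⟨m, rfl⟩ := S'.surj z
    obtain ⟨w, hw, hDw⟩ := S'.exists_lift hz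
    obtain ⟨x, u, hx, e⟩ := ha.surj w hDw
    have e1 : b.f (f.f x) = M.D (m - f'.f u) := by
      rw [hab, map_sub, ← hw, e, map_add, f'.D]
      abel
    obtain ⟨y, hy⟩ := hb.inj (f.f x) _ (by rw [← f.D, hx, map_zero]) e1
    obtain ⟨y1, v, hy1, e2⟩ := hb.surj (m - f'.f u - b.f y) (by
      rw [map_sub, ← e1, ← b.D, hy, sub_self])
    refine ⟨g.f (y + y1), g'.f v, ?_, ?_⟩
    · rw [← g.D, map_add, hy, hy1, add_zero, S.zero]
    · have e3 := congrArg g'.f e2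
      rw [map_sub, map_sub, S'.zero, sub_zero, map_add, g'.D] at e3
      rw [hbc, map_add, map_add]
      have e4 : g'.f m = (g'.f m - g'.f (b.f y)) + g'.f (b.f y) := by abel
      rw [e4, e3]
      abel

/-! ### cones -/

/-- the mapping cone: `D (y, x) = (D y + f x, - D x)` -/
def cone (f : SD.Hom N N') : SD k where
  V := N'.V × N.V
  D := (N'.D ∘ₗ LinearMap.fst k N'.V N.V + f.f ∘ₗ LinearMap.snd k N'.V N.V).prod
    (-(N.D ∘ₗ LinearMap.snd k N'.V N.V))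
  P := N'.P.prodMap (LinearMap.id - N.P)
  DD := fun v => by simp [N'.DD, N.DD, f.D]
  PP := fun v => by simp [N'.PP, N.PP]
  DP := fun v => by
    refine Prod.ext ?_ ?_
    · simp [N'.DP, f.P]
      abel
    · simp [N.DP]

/-- the inclusion of the target in the cone -/
def coneIn (f : SD.Hom N N') : SD.Hom N' (cone f) where
  f := LinearMap.inl k N'.V N.V
  D := fun v => by
    refine Prod.ext ?_ ?_
    · change N'.D v = N'.D v + f.f 0
      rw [map_zero, add_zero]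
    · change (0 : N.V) = -(N.D 0)
      rw [map_zero, neg_zero]
  P := fun v => by
    refine Prod.ext rfl ?_
    change (0 : N.V) = 0 - N.P 0
    rw [map_zero, sub_zero]

/-- the projection of the cone on the shifted source -/
def coneOut (f : SD.Hom N N') : SD.Hom (cone f) N.sh where
  f := LinearMap.snd k N'.V N.V
  D := fun _ => rfl
  P := fun _ => rfl

theorem cone_ses (f : SD.Hom N N') : SES (coneIn f) (coneOut f) where
  inj := fun _ h => congrArg Prod.fst h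
  surj := fun z => ⟨(0, z), rfl⟩
  zero := fun _ => rfl
  exact := by
    rintro ⟨y, x⟩ h
    have hx : x = 0 := h
    exact ⟨y, by rw [hx]; rfl⟩

theorem cone_D (f : SD.Hom N N') (y : N'.V) (x : N.V) :
    (cone f).D ((y, x) : N'.V × N.V) = ((N'.D y + f.f x, -(N.D x)) : N'.V × N.V) := rfl

theorem cone_acyclic_iff (f : SD.Hom N N') : (cone f).Acyclic ↔ f.QI := by
  constructor
  · intro h
    constructor
    · intro x y hx hxy
      obtain ⟨⟨y1, x1⟩, hz⟩ := h ((-y, x) : N'.V × N.V) (by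
        rw [cone_D, hx, hxy, map_neg, neg_zero, neg_add_cancel]
        rfl)
      rw [cone_D] at hz
      refine ⟨-x1, ?_⟩
      rw [map_neg]
      exact congrArg Prod.snd hz
    · intro y hy
      obtain ⟨⟨y1, x1⟩, hz⟩ := h ((y, 0) : N'.V × N.V) (by
        rw [cone_D, hy, map_zero, map_zero, neg_zero, add_zero]
        rfl)
      rw [cone_D] at hz
      refine ⟨x1, y1, neg_eq_zero.1 (congrArg Prod.snd hz), ?_⟩
      rw [add_comm]
      exact (congrArg Prod.fst hz).symm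
  · rintro hf ⟨y, x⟩ hz
    rw [cone_D] at hz
    have hx : N.D x = 0 := neg_eq_zero.1 (congrArg Prod.snd hz)
    have hy : N'.D y + f.f x = 0 := congrArg Prod.fst hz
    obtain ⟨z, hz'⟩ := hf.inj x (-y) hx (by rw [map_neg]; exact eq_neg_of_add_eq_zero_right hy)
    obtain ⟨x1, w, hx1, e⟩ := hf.surj (y + f.f z) (by rw [map_add, ← f.D, hz', hy])
    refine ⟨((w, x1 - z) : N'.V × N.V), ?_⟩
    rw [cone_D]
    refine Prod.ext ?_ ?_
    · change N'.D w + f.f (x1 - z) = y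
      have e1 : y = f.f x1 + N'.D w - f.f z := by
        rw [← e]
        abel
      rw [e1, map_sub]
      abel
    · change -(N.D (x1 - z)) = x
      rw [map_sub, hx1, hz']
      abel

/-! ### Kuenneth -/

/-- the span of the products of homogeneous cycles -/
def cyc (X Y : SD k) : Submodule k (X.V ⊗[k] Y.V) :=
  Submodule.span k {t | ∃ x y, (X.P x = x ∨ X.P x = 0) ∧ (Y.P y = y ∨ Y.P y = 0) ∧
    X.D x = 0 ∧ Y.D y = 0 ∧ t = x ⊗ₜ[k] y}

/-- every cycle of a tensor product is homologous to a sum of products of homogeneous cycles -/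
theorem kuenneth_hodge {X Y : SD k} (HX : X.Hodge) (HY : Y.Hodge) :
    ∃ s : X.V ⊗[k] Y.V →ₗ[k] X.V ⊗[k] Y.V, OddMap (X.tens Y) (X.tens Y) s ∧
      ∀ z, z - TensorProduct.map HX.pi HY.pi z = (X.tens Y).D (s z) + s ((X.tens Y).D z) := by
  have h1 : ∀ v, HX.h (X.P v) = HX.h v - X.P (HX.h v) := HX.h_P
  have h2 : ∀ v, HY.h (Y.P v) = HY.h v - Y.P (HY.h v) := HY.h_P
  have p1 : ∀ v, HX.pi (X.P v) = X.P (HX.pi v) := HX.pi_P
  have p2 : ∀ v, HY.pi (Y.P v) = Y.P (HY.pi v) := HY.pi_P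
  refine ⟨TensorProduct.map HX.h LinearMap.id + TensorProduct.map (X.E ∘ₗ HX.pi) HY.h, ?_, ?_⟩
  · intro z
    refine tens_ext (f := (TensorProduct.map HX.h LinearMap.id +
      TensorProduct.map (X.E ∘ₗ HX.pi) HY.h) ∘ₗ tP X Y)
      (g := (TensorProduct.map HX.h LinearMap.id +
      TensorProduct.map (X.E ∘ₗ HX.pi) HY.h) - tP X Y ∘ₗ (TensorProduct.map HX.h LinearMap.id +
      TensorProduct.map (X.E ∘ₗ HX.pi) HY.h)) (fun x y => ?_) z
    simp only [LinearMap.comp_apply, LinearMap.sub_apply, LinearMap.add_apply, tP_tmul, map_add,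
      TensorProduct.map_tmul, LinearMap.id_apply, h1, h2, p1, p2, map_sub, SD.E_apply, X.PP,
      TensorProduct.sub_tmul, TensorProduct.tmul_sub, TensorProduct.add_tmul,
      TensorProduct.tmul_add]
    abel
  · intro z
    refine tens_ext (f := LinearMap.id - TensorProduct.map HX.pi HY.pi)
      (g := tD X Y ∘ₗ (TensorProduct.map HX.h LinearMap.id +
      TensorProduct.map (X.E ∘ₗ HX.pi) HY.h) + (TensorProduct.map HX.h LinearMap.id +
      TensorProduct.map (X.E ∘ₗ HX.pi) HY.h) ∘ₗ tD X Y) (fun x y => ?_) z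
    have e1 : HX.h (X.E x) = - X.E (HX.h x) := OddMap.E HX.h_P x
    have e2 : HX.pi (X.E x) = X.E (HX.pi x) := EvenMap.E HX.pi_P x
    have e3 : HX.h (X.D x) = x - HX.pi x - X.D (HX.h x) := by rw [← HX.eq x]; abel
    have e4 : HY.h (Y.D y) = y - HY.pi y - Y.D (HY.h y) := by rw [← HY.eq y]; abel
    simp only [LinearMap.comp_apply, LinearMap.sub_apply, LinearMap.add_apply, tD_tmul, map_add,
      TensorProduct.map_tmul, LinearMap.id_apply, e1, e2, e3, e4, X.DE, X.EE, HX.D_pi, HX.pi_D,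
      map_zero, neg_zero, TensorProduct.zero_tmul,
      TensorProduct.sub_tmul, TensorProduct.tmul_sub, TensorProduct.neg_tmul]
    abel

theorem map_pi_mem_cyc {X Y : SD k} (HX : X.Hodge) (HY : Y.Hodge) (z : X.V ⊗[k] Y.V) :
    TensorProduct.map HX.pi HY.pi z ∈ cyc X Y := by
  have hmem : ∀ x y, (X.P x = x ∨ X.P x = 0) → (Y.P y = y ∨ Y.P y = 0) → X.D x = 0 →
      Y.D y = 0 → x ⊗ₜ[k] y ∈ cyc X Y :=
    fun x y h1 h2 h3 h4 => Submodule.subset_span ⟨x, y, h1, h2, h3, h4, rfl⟩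
  have hE : ∀ (N : SD k) (H : N.Hodge) (v : N.V), N.D (N.P (H.pi v)) = 0 := by
    intro N H v
    rw [N.DP, H.D_pi, map_zero, sub_zero]
  have hO : ∀ (N : SD k) (H : N.Hodge) (v : N.V), N.D (H.pi v - N.P (H.pi v)) = 0 := by
    intro N H v
    rw [map_sub, hE, H.D_pi, sub_zero]
  have hE' : ∀ (N : SD k) (v : N.V), N.P (N.P v) = N.P v ∨ N.P (N.P v) = 0 :=
    fun N v => Or.inl (N.PP v)
  have hO' : ∀ (N : SD k) (v : N.V), N.P (v - N.P v) = v - N.P v ∨ N.P (v - N.P v) = 0 :=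
    fun N v => Or.inr (by rw [map_sub, N.PP, sub_self])
  induction z using TensorProduct.induction_on with
  | zero => rw [map_zero]; exact Submodule.zero_mem _
  | tmul x y =>
    rw [TensorProduct.map_tmul]
    have e1 : HX.pi x = X.P (HX.pi x) + (HX.pi x - X.P (HX.pi x)) := by abel
    have e2 : HY.pi y = Y.P (HY.pi y) + (HY.pi y - Y.P (HY.pi y)) := by abel
    rw [e1, e2, TensorProduct.add_tmul, TensorProduct.tmul_add, TensorProduct.tmul_add]
    exact Submodule.add_mem _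
      (Submodule.add_mem _ (hmem _ _ (hE' _ _) (hE' _ _) (hE _ _ _) (hE _ _ _))
        (hmem _ _ (hE' _ _) (hO' _ _) (hE _ _ _) (hO _ _ _)))
      (Submodule.add_mem _ (hmem _ _ (hO' _ _) (hE' _ _) (hO _ _ _) (hE _ _ _))
        (hmem _ _ (hO' _ _) (hO' _ _) (hO _ _ _) (hO _ _ _)))
  | add a b ha hb =>
    rw [map_add]
    exact Submodule.add_mem _ ha hb

/-- every cycle of a tensor product is homologous to a sum of products of homogeneous cycles -/
theorem kuenneth (X Y : SD k) (z : X.V ⊗[k] Y.V) (hz : (X.tens Y).D z = 0) :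
    ∃ z' ∈ cyc X Y, (X.tens Y).Hml z z' := by
  obtain ⟨HX⟩ := X.hodge
  obtain ⟨HY⟩ := Y.hodge
  obtain ⟨s, _, hs⟩ := kuenneth_hodge HX HY
  refine ⟨TensorProduct.map HX.pi HY.pi z, map_pi_mem_cyc HX HY z, s z, ?_⟩
  rw [hs z, hz, map_zero, add_zero]

theorem FinH.tens {X Y : SD k} (hX : X.FinH) (hY : Y.FinH) : (X.tens Y).FinH := by
  obtain ⟨HX⟩ := X.hodge
  obtain ⟨HY⟩ := Y.hodge
  obtain ⟨s, _, hs⟩ := kuenneth_hodge HX HY
  have f1 := HX.finite hX
  have f2 := HY.finite hY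
  refine FinH.of_subspace (N := X.tens Y) (LinearMap.range (TensorProduct.map
    (LinearMap.range HX.pi).subtype (LinearMap.range HY.pi).subtype)) inferInstance
    (fun z hz => ⟨TensorProduct.map HX.pi HY.pi z, ?_, s z, ?_⟩)
  · refine ⟨TensorProduct.map HX.pi.rangeRestrict HY.pi.rangeRestrict z, ?_⟩
    rw [← LinearMap.comp_apply, ← TensorProduct.map_comp]
    rfl
  · rw [hs z, hz, map_zero, add_zero]

end SD

end NC
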